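import Pool.Agent.Lib.MP_412417_pr.V.VDefs
import Pool.Agent.Lib.MP_412417_pr.P0
import Pool.Agent.Lib.MP_412417_pr.G1

/-!
Row 412-V1: measurability of the chain event.

Adapt the proof of `measurableSet_chain` (file G1.lean): for `c = ⟨k, x⟩` the set of `x` is closed, a finite union over the pairs in
`Fin k × ι` and the relations `R` on `Fin k × ι`.
-/

set_option autoImplicit false

open MeasureTheory Set
open scoped ENNReal Pointwise

namespace MP412

theorem vchain_mono {ι : Type} {u u' s : ℝ} {K : ι → Set ℂ} {A B X Y : Set ℂ} (hu : u ≤ u')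
    (hXY : X ⊆ Y) (h : VChain u s K A B X) : VChain u' s K A B Y := by
  obtain ⟨p, p', hp, hp', hA, hB, hr⟩ := h
  refine ⟨p, p', hXY hp, hXY hp', hA, hB, ?_⟩
  have h1 : ∀ a b : ℂ × ι, (a.1 ∈ X ∧ b.1 ∈ X ∧ VLink u s K a b) →
      (a.1 ∈ Y ∧ b.1 ∈ Y ∧ VLink u' s K a b) :=
    fun a b hab => ⟨hXY hab.1, hXY hab.2.1, hab.2.2.1.trans hu, hab.2.2.2⟩
  exact Relation.ReflTransGen.mono h1 _ _ hr

private theorem V1_ex {X : Type} [TopologicalSpace X] {K : Set ℂ} (hK : IsCompact K)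
    {F : X → ℂ → Prop} (hF : IsClosed {z : X × ℂ | F z.1 z.2}) : IsClosed {x | ∃ q ∈ K, F x q} := by
  have : CompactSpace K := isCompact_iff_compactSpace.1 hK
  have h1 : IsClosed {z : X × K | F z.1 (z.2 : ℂ)} :=
    hF.preimage (continuous_fst.prodMk (continuous_subtype_val.comp continuous_snd))
  have h2 : {x | ∃ q ∈ K, F x q} = Prod.fst '' {z : X × K | F z.1 (z.2 : ℂ)} := by
    ext x
    constructor
    · rintro ⟨q, hq, hF⟩
      exact ⟨(x, ⟨q, hq⟩), hF, rfl⟩
    · rintro ⟨⟨x', q⟩, hF, rfl⟩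
      exact ⟨q, q.2, hF⟩
  rw [h2]
  exact isClosedMap_fst_of_compactSpace _ h1

private theorem V1_near {k : ℕ} {A : Set ℂ} (hA : IsCompact A) (s : ℝ) (i : Fin k) :
    IsClosed {x : Fin k → ℂ | ∃ q ∈ A, dist (x i) q ≤ s} := by
  refine V1_ex hA (F := fun (x : Fin k → ℂ) (q : ℂ) => dist (x i) q ≤ s) ?_
  exact isClosed_le (((continuous_apply i).comp continuous_fst).dist continuous_snd)
    continuous_const

private theorem V1_link {ι : Type} {k : ℕ} {K : ι → Set ℂ} (hK : ∀ i, IsCompact (K i)) (u s : ℝ)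
    (i j : Fin k × ι) : IsClosed {x : Fin k → ℂ | VLink u s K (x i.1, i.2) (x j.1, j.2)} := by
  have h1 : IsClosed {x : Fin k → ℂ | ∃ q ∈ K i.2 ∩ K j.2, dist (x i.1) q ≤ s ∧
      dist (x j.1) q ≤ s} := by
    refine V1_ex ((hK i.2).inter (hK j.2))
      (F := fun (x : Fin k → ℂ) (q : ℂ) => dist (x i.1) q ≤ s ∧ dist (x j.1) q ≤ s) ?_
    exact (isClosed_le (((continuous_apply i.1).comp continuous_fst).dist continuous_snd)
      continuous_const).inter
      (isClosed_le (((continuous_apply j.1).comp continuous_fst).dist continuous_snd)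
        continuous_const)
  have h2 : IsClosed {x : Fin k → ℂ | dist (x i.1) (x j.1) ≤ u} :=
    isClosed_le ((continuous_apply i.1).dist (continuous_apply j.1)) continuous_const
  exact h2.inter h1

private theorem V1_iff {ι : Type} {k : ℕ} (u s : ℝ) (K : ι → Set ℂ) (A B : Set ℂ)
    (x : Fin k → ℂ) :
    VChain u s K A B (range x) ↔ ∃ i j : Fin k × ι, ∃ R : Fin k × ι → Fin k × ι → Prop,
      Relation.ReflTransGen R i j ∧ (∃ q ∈ A ∩ K i.2, dist (x i.1) q ≤ s) ∧
        (∃ q ∈ B ∩ K j.2, dist (x j.1) q ≤ s) ∧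
        ∀ a b, R a b → VLink u s K (x a.1, a.2) (x b.1, b.2) := by
  constructor
  · rintro ⟨⟨_, l⟩, p', ⟨i, rfl⟩, hp', hA, hB, hr⟩
    have key : ∃ j : Fin k × ι, p' = (x j.1, j.2) ∧
        Relation.ReflTransGen (fun a b : Fin k × ι => VLink u s K (x a.1, a.2) (x b.1, b.2))
          (i, l) j := by
      clear hB hp'
      induction hr with
      | refl => exact ⟨(i, l), rfl, Relation.ReflTransGen.refl⟩
      | @tail b c _ hbc ih =>
        obtain ⟨j, hj, hij⟩ := ih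
        obtain ⟨_, ⟨m, hm⟩, hlink⟩ := hbc
        refine ⟨(m, c.2), Prod.ext hm.symm rfl, hij.tail ?_⟩
        show VLink u s K (x j.1, j.2) (x m, c.2)
        rw [← hj, hm]
        exact hlink
    obtain ⟨j, rfl, hij⟩ := key
    exact ⟨(i, l), j, _, hij, hA, hB, fun a b hab => hab⟩
  · rintro ⟨i, j, R, hR, hA, hB, hL⟩
    refine ⟨(x i.1, i.2), (x j.1, j.2), ⟨i.1, rfl⟩, ⟨j.1, rfl⟩, hA, hB, ?_⟩
    have h1 : ∀ a b : Fin k × ι, R a b → (x a.1 ∈ range x ∧ x b.1 ∈ range x ∧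
        VLink u s K (x a.1, a.2) (x b.1, b.2)) :=
      fun a b hab => ⟨⟨a.1, rfl⟩, ⟨b.1, rfl⟩, hL a b hab⟩
    exact Relation.ReflTransGen.lift (fun a : Fin k × ι => ((x a.1, a.2) : ℂ × ι)) h1 _ _ hR

theorem measurableSet_vchain {ι : Type} [Finite ι] (u s : ℝ) (K : ι → Set ℂ) (A B : Set ℂ)
    (hK : ∀ i, IsCompact (K i)) (hA : IsCompact A) (hB : IsCompact B) :
    MeasurableSet {c : Conf | VChain u s K A B (pts c)} := by
  have hsig : ∀ S : Set Conf, (∀ k : ℕ, MeasurableSet ((fun x : Fin k → ℂ =>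
      (⟨k, x⟩ : Conf)) ⁻¹' S)) → MeasurableSet S := by
    intro S hS
    rw [MeasurableSpace.measurableSet_iInf]
    exact hS
  apply hsig
  intro k
  have h1 : (fun x : Fin k → ℂ => (⟨k, x⟩ : Conf)) ⁻¹' {c : Conf | VChain u s K A B (pts c)} =
      ⋃ (i : Fin k × ι) (j : Fin k × ι) (R : Fin k × ι → Fin k × ι → Prop)
        (_ : Relation.ReflTransGen R i j),
        {x : Fin k → ℂ | ∃ q ∈ A ∩ K i.2, dist (x i.1) q ≤ s} ∩
          ({x : Fin k → ℂ | ∃ q ∈ B ∩ K j.2, dist (x j.1) q ≤ s} ∩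
          ⋂ (a : Fin k × ι) (b : Fin k × ι) (_ : R a b),
            {x : Fin k → ℂ | VLink u s K (x a.1, a.2) (x b.1, b.2)}) := by
    ext x
    simp only [mem_preimage, mem_iUnion, mem_inter_iff, mem_iInter, mem_ofPred_eq]
    have h2 := V1_iff u s K A B x
    simp only [mem_inter_iff] at h2
    constructor
    · intro h
      obtain ⟨i, j, R, hR, h3, h4, h5⟩ := h2.1 h
      exact ⟨i, j, R, hR, h3, h4, h5⟩
    · rintro ⟨i, j, R, hR, h3, h4, h5⟩
      exact h2.2 ⟨i, j, R, hR, h3, h4, h5⟩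
  rw [h1]
  refine MeasurableSet.iUnion fun i => MeasurableSet.iUnion fun j => MeasurableSet.iUnion fun R =>
    MeasurableSet.iUnion fun _ => ?_
  refine (V1_near (hA.inter (hK i.2)) s i.1).measurableSet.inter
    ((V1_near (hB.inter (hK j.2)) s j.1).measurableSet.inter ?_)
  exact MeasurableSet.iInter fun a => MeasurableSet.iInter fun b => MeasurableSet.iInter fun _ =>
    (V1_link hK u s a b).measurableSet

end MP412
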