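import Pool.Agent.Lib.MP_412417_pr.Defs

/-!
Row 412-V7: the measure of a shell in the product.

Adapt the proof of `shell` (file G7.lean) to `ℂ × ℂ` (the metric is the maximum metric, `Measure.addHaar_image_homothety`, `finrank ℝ (ℂ × ℂ) = 4`,
`Measure.volume_eq_prod`); nothing else changes.
-/

set_option autoImplicit false

open MeasureTheory Set
open scoped ENNReal Pointwise

namespace MP412

private theorem V7_finrank : Module.finrank ℝ (ℂ × ℂ) = 4 := by
  rw [Module.finrank_prod, Complex.finrank_real_complex]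

/-- the cell of `f i` among `f 0, .., f (n-1)` -/
private def V7_cell (f : ℕ → ℂ × ℂ) (n i : ℕ) : Set (ℂ × ℂ) :=
  {z | ∀ j < n, dist z (f i) ≤ dist z (f j) ∧ (j < i → dist z (f i) < dist z (f j))}

private theorem V7_cell_meas (f : ℕ → ℂ × ℂ) (n i : ℕ) : MeasurableSet (V7_cell f n i) := by
  have h : V7_cell f n i = ⋂ j ∈ Finset.range n, ({z | dist z (f i) ≤ dist z (f j)} ∩
      {z | j < i → dist z (f i) < dist z (f j)}) := by
    ext z
    simp only [V7_cell, Finset.mem_range, mem_iInter, mem_inter_iff, Set.mem_ofPred_eq]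
  rw [h]
  refine Finset.measurableSet_biInter _ fun j _ => MeasurableSet.inter ?_ ?_
  · exact (isClosed_le (by fun_prop) (by fun_prop)).measurableSet
  · by_cases hj : j < i
    · simp only [hj, true_imp_iff]
      exact (isOpen_lt (by fun_prop) (by fun_prop)).measurableSet
    · simp only [hj, false_imp_iff, Set.ofPred_true]
      exact MeasurableSet.univ

private theorem V7_cell_disj (f : ℕ → ℂ × ℂ) (n : ℕ) {i j : ℕ} (hi : i < n) (hj : j < n) (hij : i ≠ j) :
    Disjoint (V7_cell f n i) (V7_cell f n j) := by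
  rw [Set.disjoint_left]
  intro z hz1 hz2
  rcases lt_or_gt_of_ne hij with h | h
  · have h1 := (hz2 i hi).2 h
    have h2 := (hz1 j hj).1
    linarith
  · have h1 := (hz1 j hj).2 h
    have h2 := (hz2 i hi).1
    linarith

/-- every point is in the cell of some index -/
private theorem V7_cell_cover (f : ℕ → ℂ × ℂ) (n : ℕ) (hn : 0 < n) (z : ℂ × ℂ) :
    ∃ i < n, z ∈ V7_cell f n i := by
  classical
  have hne : (Finset.range n).Nonempty := ⟨0, Finset.mem_range.2 hn⟩
  obtain ⟨i0, hi0, hmin⟩ := Finset.exists_min_image (Finset.range n) (fun i => dist z (f i)) hne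
  have hex : ∃ i, i < n ∧ ∀ j < n, dist z (f i) ≤ dist z (f j) :=
    ⟨i0, Finset.mem_range.1 hi0, fun j hj => hmin j (Finset.mem_range.2 hj)⟩
  refine ⟨Nat.find hex, (Nat.find_spec hex).1, fun j hj => ⟨(Nat.find_spec hex).2 j hj, fun hji => ?_⟩⟩
  have hnot := Nat.find_min hex hji
  push Not at hnot
  obtain ⟨k, hk, hlt⟩ := hnot hj
  exact lt_of_le_of_lt ((Nat.find_spec hex).2 k hk) hlt

private theorem V7_star (f : ℕ → ℂ × ℂ) (n i : ℕ) {z : ℂ × ℂ} (hz : z ∈ V7_cell f n i) {r : ℝ} (hr : 0 ≤ r)
    (hr1 : r ≤ 1) : AffineMap.homothety (f i) r z ∈ V7_cell f n i := by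
  set w := AffineMap.homothety (f i) r z with hw
  have h1 : dist w (f i) = r * dist z (f i) := by
    rw [hw, dist_homothety_center, Real.norm_of_nonneg hr, dist_comm]
  have h2 : dist z w = (1 - r) * dist z (f i) := by
    rw [hw, dist_self_homothety, Real.norm_of_nonneg (by linarith), dist_comm]
  intro j hj
  have h3 : dist z (f j) ≤ dist z w + dist w (f j) := dist_triangle _ _ _
  obtain ⟨h4, h5⟩ := hz j hj
  refine ⟨by rw [h1]; nlinarith, fun hji => ?_⟩
  have h6 := h5 hji
  rw [h1]
  nlinarith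

private theorem V7_homothety (f : ℕ → ℂ × ℂ) (n i : ℕ) {s t : ℝ} (hs : 0 < s) (hst : s ≤ t) :
    volume (V7_cell f n i ∩ Metric.ball (f i) t) ≤
      ENNReal.ofReal ((t / s) ^ 4) * volume (V7_cell f n i ∩ Metric.ball (f i) s) := by
  have ht : 0 < t := lt_of_lt_of_le hs hst
  have hsub : AffineMap.homothety (f i) (s / t) '' (V7_cell f n i ∩ Metric.ball (f i) t) ⊆
      V7_cell f n i ∩ Metric.ball (f i) s := by
    rintro _ ⟨z, ⟨hz1, hz2⟩, rfl⟩
    refine ⟨V7_star f n i hz1 (by positivity) ((div_le_one ht).2 hst), ?_⟩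
    rw [Metric.mem_ball, dist_homothety_center, Real.norm_of_nonneg (by positivity), dist_comm]
    rw [Metric.mem_ball] at hz2
    calc s / t * dist z (f i) < s / t * t := by
          apply mul_lt_mul_of_pos_left hz2 (by positivity)
      _ = s := by field_simp
  have h1 := measure_mono (μ := volume) hsub
  have hH : (volume : Measure (ℂ × ℂ)).IsAddHaarMeasure := by
    rw [Measure.volume_eq_prod]
    infer_instance
  rw [Measure.addHaar_image_homothety] at h1
  rw [V7_finrank, abs_of_nonneg (by positivity)] at h1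
  calc volume (V7_cell f n i ∩ Metric.ball (f i) t)
      = ENNReal.ofReal ((t / s) ^ 4) * (ENNReal.ofReal ((s / t) ^ 4) *
          volume (V7_cell f n i ∩ Metric.ball (f i) t)) := by
        rw [← mul_assoc, ← ENNReal.ofReal_mul (by positivity)]
        have : (t / s) ^ 4 * (s / t) ^ 4 = 1 := by field_simp
        rw [this, ENNReal.ofReal_one, one_mul]
    _ ≤ _ := mul_le_mul_right h1 _

/-- the finite case -/
private theorem V7_fin (f : ℕ → ℂ × ℂ) (n : ℕ) {s t : ℝ} (hs : 0 < s) (hst : s ≤ t) :
    volume (⋃ i ∈ Finset.range n, Metric.ball (f i) t) ≤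
      ENNReal.ofReal ((t / s) ^ 4) * volume (⋃ i ∈ Finset.range n, Metric.ball (f i) s) := by
  rcases Nat.eq_zero_or_pos n with rfl | hn
  · simp
  have h1 : (⋃ i ∈ Finset.range n, Metric.ball (f i) t) ⊆
      ⋃ i ∈ Finset.range n, (V7_cell f n i ∩ Metric.ball (f i) t) := by
    intro z hz
    simp only [mem_iUnion, Finset.mem_range, exists_prop] at hz ⊢
    obtain ⟨j, hj, hzj⟩ := hz
    obtain ⟨i, hi, hzi⟩ := V7_cell_cover f n hn z
    refine ⟨i, hi, hzi, ?_⟩
    rw [Metric.mem_ball] at hzj ⊢
    exact lt_of_le_of_lt (hzi j hj).1 hzj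
  have h2 : (⋃ i ∈ Finset.range n, (V7_cell f n i ∩ Metric.ball (f i) s)) ⊆
      ⋃ i ∈ Finset.range n, Metric.ball (f i) s :=
    iUnion₂_mono fun i _ => inter_subset_right
  calc volume (⋃ i ∈ Finset.range n, Metric.ball (f i) t)
      ≤ volume (⋃ i ∈ Finset.range n, (V7_cell f n i ∩ Metric.ball (f i) t)) := measure_mono h1
    _ ≤ ∑ i ∈ Finset.range n, volume (V7_cell f n i ∩ Metric.ball (f i) t) :=
        measure_biUnion_finset_le _ _
    _ ≤ ∑ i ∈ Finset.range n, ENNReal.ofReal ((t / s) ^ 4) *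
          volume (V7_cell f n i ∩ Metric.ball (f i) s) :=
        Finset.sum_le_sum fun i _ => V7_homothety f n i hs hst
    _ = ENNReal.ofReal ((t / s) ^ 4) *
          ∑ i ∈ Finset.range n, volume (V7_cell f n i ∩ Metric.ball (f i) s) := by
        rw [Finset.mul_sum]
    _ = ENNReal.ofReal ((t / s) ^ 4) *
          volume (⋃ i ∈ Finset.range n, (V7_cell f n i ∩ Metric.ball (f i) s)) := by
        rw [measure_biUnion_finset]
        · intro i hi j hj hij
          exact (V7_cell_disj f n (Finset.mem_range.1 hi) (Finset.mem_range.1 hj) hij).mono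
            inter_subset_left inter_subset_left
        · intro i _
          exact (V7_cell_meas f n i).inter Metric.isOpen_ball.measurableSet
    _ ≤ _ := mul_le_mul_right (measure_mono h2) _

private theorem V7_thick (F : Set (ℂ × ℂ)) (hF : F.Nonempty) {s t : ℝ} (hs : 0 < s) (hst : s ≤ t) :
    volume (Metric.thickening t F) ≤ ENNReal.ofReal ((t / s) ^ 4) * volume (Metric.thickening s F) := by
  have : Nonempty F := hF.to_subtype
  set f : ℕ → ℂ × ℂ := fun n => (TopologicalSpace.denseSeq F n : ℂ × ℂ) with hf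
  have hdense := TopologicalSpace.denseRange_denseSeq F
  have key : ∀ r : ℝ, Metric.thickening r F = ⋃ n, ⋃ i ∈ Finset.range n, Metric.ball (f i) r := by
    intro r
    ext z
    simp only [Metric.mem_thickening_iff, mem_iUnion, Finset.mem_range, exists_prop, Metric.mem_ball]
    constructor
    · rintro ⟨y, hy, hzy⟩
      obtain ⟨n, hn⟩ := hdense.exists_dist_lt (⟨y, hy⟩ : F) (sub_pos.2 hzy)
      refine ⟨n + 1, n, Nat.lt_succ_self n, ?_⟩
      have h1 : dist y (f n) < r - dist z y := hn
      have h2 : dist z (f n) ≤ dist z y + dist y (f n) := dist_triangle _ _ _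
      linarith
    · rintro ⟨n, i, _, hi⟩
      exact ⟨f i, (TopologicalSpace.denseSeq F i).2, hi⟩
  have hmono : ∀ r : ℝ, Monotone fun n : ℕ => ⋃ i ∈ Finset.range n, Metric.ball (f i) r := by
    intro r m n hmn
    exact biUnion_subset_biUnion_left (Finset.coe_subset.2 (Finset.range_mono hmn))
  rw [key t, (hmono t).measure_iUnion]
  refine iSup_le fun n => ?_
  refine (V7_fin f n hs hst).trans (mul_le_mul_right (measure_mono ?_) _)
  rw [key s]
  exact subset_iUnion (fun n => ⋃ i ∈ Finset.range n, Metric.ball (f i) s) n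

private theorem V7_shell (F : Set (ℂ × ℂ)) (hF : Bornology.IsBounded F) (s t : ℝ) (hs : 0 < s) (hst : s ≤ t) :
    volume {z | s ≤ Metric.infDist z F ∧ Metric.infDist z F ≤ t} ≤
      ENNReal.ofReal ((t / s) ^ 4 - 1) * volume (Metric.thickening s F) := by
  rcases F.eq_empty_or_nonempty with rfl | hne
  · have : {z : ℂ × ℂ | s ≤ Metric.infDist z (∅ : Set (ℂ × ℂ)) ∧ Metric.infDist z (∅ : Set (ℂ × ℂ)) ≤ t} = ∅ := by
      ext z
      simp only [Metric.infDist_empty, Set.mem_ofPred_eq, mem_empty_iff_false, iff_false, not_and]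
      intro h
      linarith
    rw [this, measure_empty]
    exact zero_le
  set B := Metric.thickening s F with hB
  have hBeq : B = {z | Metric.infDist z F < s} := by
    ext z
    rw [hB, Metric.mem_thickening_iff, Set.mem_ofPred_eq, Metric.infDist_lt_iff hne]
  have hBfin : volume B ≠ ⊤ := (hF.thickening.measure_lt_top).ne
  set A := {z | Metric.infDist z F ≤ t} with hA
  have hAle : volume A ≤ ENNReal.ofReal ((t / s) ^ 4) * volume B := by
    have hev : ∀ᶠ t' in nhdsWithin t (Ioi t), volume A ≤ ENNReal.ofReal ((t' / s) ^ 4) * volume B := by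
      filter_upwards [self_mem_nhdsWithin] with t' ht'
      have ht2 : t < t' := ht'
      refine (measure_mono ?_).trans (V7_thick F hne hs (hst.trans ht2.le))
      intro z hz
      rw [Metric.mem_thickening_iff, ← Metric.infDist_lt_iff hne]
      exact lt_of_le_of_lt hz ht2
    have hcont : Filter.Tendsto (fun t' : ℝ => ENNReal.ofReal ((t' / s) ^ 4) * volume B)
        (nhdsWithin t (Ioi t)) (nhds (ENNReal.ofReal ((t / s) ^ 4) * volume B)) := by
      have h1 : Filter.Tendsto (fun t' : ℝ => ENNReal.ofReal ((t' / s) ^ 4)) (nhds t)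
          (nhds (ENNReal.ofReal ((t / s) ^ 4))) := by
        apply ENNReal.tendsto_ofReal
        exact (Continuous.tendsto (by fun_prop) t)
      exact ENNReal.Tendsto.mul_const (h1.mono_left nhdsWithin_le_nhds) (Or.inr hBfin)
    exact ge_of_tendsto hcont hev
  have hsub : B ⊆ A := by
    intro z hz
    rw [hBeq] at hz
    exact le_trans (le_of_lt hz) hst
  have hset : {z | s ≤ Metric.infDist z F ∧ Metric.infDist z F ≤ t} = A \ B := by
    ext z
    rw [hBeq]
    simp only [hA, Set.mem_ofPred_eq, mem_sdiff, not_lt]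
    exact and_comm
  have hr : (1 : ℝ) ≤ (t / s) ^ 4 := by
    exact one_le_pow₀ ((one_le_div hs).2 hst)
  rw [hset]
  have hBm : MeasurableSet B := Metric.isOpen_thickening.measurableSet
  have h3 : volume (A \ B) + volume B = volume A := by
    rw [measure_sdiff hsub hBm.nullMeasurableSet hBfin]
    exact tsub_add_cancel_of_le (measure_mono hsub)
  have h4 : volume (A \ B) + volume B ≤ ENNReal.ofReal ((t / s) ^ 4 - 1) * volume B + volume B := by
    rw [h3]
    refine hAle.trans (le_of_eq ?_)
    have : (t / s) ^ 4 = ((t / s) ^ 4 - 1) + 1 := by ring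
    conv_lhs => rw [this]
    rw [ENNReal.ofReal_add (by linarith) zero_le_one, ENNReal.ofReal_one, add_mul, one_mul]
  exact (ENNReal.add_le_add_iff_right hBfin).1 h4

theorem shell_prod (F : Set (ℂ × ℂ)) (hF : Bornology.IsBounded F) (s t : ℝ) (hs : 0 < s)
    (hst : s ≤ t) :
    ((volume : Measure ℂ).prod volume) {z | s ≤ Metric.infDist z F ∧ Metric.infDist z F ≤ t} ≤
      ENNReal.ofReal ((t / s) ^ 4 - 1) * ((volume : Measure ℂ).prod volume)
        (Metric.thickening s F) := by
  rw [← Measure.volume_eq_prod]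
  exact V7_shell F hF s t hs hst

end MP412
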