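import Pool.Agent.Lib.MP_412417_pr.V.VDefs
import Pool.Agent.Lib.MP_412417_pr.V.V7

/-!
Row 412-V10: the measure of the bad pairs.

Let `(x, y) ∈ VBad s s' F` and `m = (x + y) / 2`; `dist x m = dist y m = dist x y / 2 ≤ s`, so `m ∉ F`. Let `q ∈ F` with `dist x q ≤ s'`, `dist y q ≤ s'`. The segment from
`q` to `m` meets `frontier F` in a point `q'` (G9.lean contains such an argument) with `dist x q' ≤ s'`, `dist y q' ≤ s'` (convexity of the distance). So with
`D = (fun q => (q, q)) '' frontier F` we have `s ≤ infDist (x, y) D ≤ s'` (the distance in `ℂ × ℂ` is the maximum; `frontier F ⊆ F`). Apply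
`shell_prod`. And `thickening s D ⊆ {(x, y) | x ∈ thickening s (frontier F), dist x y < 2 s}`, of measure at most
`volume (thickening s (frontier F)) * (4 * π * s ^ 2)` (`Measure.prod_apply`, `Complex.volume_ball`).
-/

set_option autoImplicit false

open MeasureTheory Set
open scoped ENNReal Pointwise

namespace MP412

private theorem V10_proj (K : Set ℂ) (hK : IsCompact K) (S : Set ((ℂ × ℂ) × ℂ)) (hS : IsClosed S) :
    IsClosed {p : ℂ × ℂ | ∃ q ∈ K, (p, q) ∈ S} := by
  have h1 : {p : ℂ × ℂ | ∃ q ∈ K, (p, q) ∈ S} =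
      Prod.fst '' ((fun z : (ℂ × ℂ) × K => ((z.1, (z.2 : ℂ)) : (ℂ × ℂ) × ℂ)) ⁻¹' S) := by
    ext p
    constructor
    · rintro ⟨q, hq, hp⟩
      exact ⟨(p, ⟨q, hq⟩), hp, rfl⟩
    · rintro ⟨⟨p', q⟩, hp, rfl⟩
      exact ⟨q, q.2, hp⟩
  rw [h1]
  have : CompactSpace K := isCompact_iff_compactSpace.1 hK
  exact isClosedMap_fst_of_compactSpace _ (hS.preimage (by fun_prop))

private theorem V10_seg {x q m z : ℂ} {t : ℝ} (hz : z ∈ segment ℝ q m) (h1 : dist x q ≤ t)
    (h2 : dist x m ≤ t) : dist x z ≤ t := by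
  have h3 : z ∈ Metric.closedBall x t := (convex_closedBall x t).segment_subset
    (by rw [Metric.mem_closedBall, dist_comm]; exact h1)
    (by rw [Metric.mem_closedBall, dist_comm]; exact h2) hz
  rw [Metric.mem_closedBall, dist_comm] at h3
  exact h3

private theorem V10_frontier {F : Set ℂ} (hF : IsCompact F) {q m : ℂ} (hq : q ∈ F) (hm : m ∉ F) :
    (segment ℝ q m ∩ frontier F).Nonempty := by
  have hpre : IsPreconnected (segment ℝ q m) := (convex_segment q m).isPreconnected
  by_contra hcon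
  rw [Set.not_nonempty_iff_eq_empty] at hcon
  have h1 : segment ℝ q m ⊆ interior F ∪ Fᶜ := by
    intro z hz
    by_cases hzK : z ∈ F
    · left
      by_contra hzi
      have : z ∈ frontier F := ⟨subset_closure hzK, hzi⟩
      have h2 : z ∈ segment ℝ q m ∩ frontier F := ⟨hz, this⟩
      rw [hcon] at h2
      exact h2
    · exact Or.inr hzK
  have hqi : q ∈ interior F := by
    rcases h1 (left_mem_segment ℝ q m) with h2 | h2
    · exact h2
    · exact absurd hq h2
  obtain ⟨z, _, hz1, hz2⟩ := hpre (interior F) Fᶜ isOpen_interior hF.isClosed.isOpen_compl h1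
    ⟨q, left_mem_segment ℝ q m, hqi⟩ ⟨m, right_mem_segment ℝ q m, hm⟩
  exact hz2 (interior_subset hz1)

/-- the diagonal over the frontier -/
private def V10_D (F : Set ℂ) : Set (ℂ × ℂ) := (fun q => (q, q)) '' frontier F

private theorem V10_bounded {F : Set ℂ} (hF : IsCompact F) : Bornology.IsBounded (V10_D F) := by
  have hfc : IsCompact (frontier F) := hF.of_isClosed_subset isClosed_frontier
    hF.isClosed.frontier_subset
  exact (hfc.image (by fun_prop : Continuous fun q : ℂ => (q, q))).isBounded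

private theorem V10_sub {F : Set ℂ} (hF : IsCompact F) {s s' : ℝ} (hss : s ≤ s') :
    VBad s s' F ⊆ {z | s ≤ Metric.infDist z (V10_D F) ∧ Metric.infDist z (V10_D F) ≤ s'} := by
  rintro ⟨x, y⟩ ⟨h1, ⟨q, hq, hxq, hyq⟩, h3⟩
  simp only at h1 hxq hyq h3
  obtain ⟨m, hm⟩ : ∃ m : ℂ, m = midpoint ℝ x y := ⟨_, rfl⟩
  have hxm : dist x m ≤ s := by
    rw [hm, dist_left_midpoint, Real.norm_ofNat]
    linarith
  have hym : dist y m ≤ s := by
    rw [hm, dist_right_midpoint, Real.norm_ofNat]
    linarith
  have hmF : m ∉ F := fun h => h3 ⟨m, h, hxm, hym⟩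
  obtain ⟨q', hq'1, hq'2⟩ := V10_frontier hF hq hmF
  have hD : (q', q') ∈ V10_D F := ⟨q', hq'2, rfl⟩
  constructor
  · rw [Metric.le_infDist ⟨_, hD⟩]
    rintro _ ⟨p, hp, rfl⟩
    rw [Prod.dist_eq]
    by_contra hcon
    push Not at hcon
    refine h3 ⟨p, hF.isClosed.frontier_subset hp, ?_, ?_⟩
    · exact (le_max_left _ _).trans hcon.le
    · exact (le_max_right _ _).trans hcon.le
  · refine (Metric.infDist_le_dist_of_mem hD).trans ?_
    rw [Prod.dist_eq]
    exact max_le (V10_seg hq'1 hxq (hxm.trans hss)) (V10_seg hq'1 hyq (hym.trans hss))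

private theorem V10_thick (F : Set ℂ) (s : ℝ) :
    ((volume : Measure ℂ).prod volume) (Metric.thickening s (V10_D F)) ≤
      volume (Metric.thickening s (frontier F)) * ENNReal.ofReal (4 * Real.pi * s ^ 2) := by
  set T : Set (ℂ × ℂ) := {p | p.1 ∈ Metric.thickening s (frontier F) ∧ dist p.1 p.2 < 2 * s} with hT
  have hsub : Metric.thickening s (V10_D F) ⊆ T := by
    rintro ⟨x, y⟩ h
    rw [Metric.mem_thickening_iff] at h
    obtain ⟨_, ⟨q, hq, rfl⟩, hd⟩ := h
    rw [Prod.dist_eq] at hd
    have h1 : dist x q < s := (le_max_left _ _).trans_lt hd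
    have h2 : dist y q < s := (le_max_right _ _).trans_lt hd
    refine ⟨Metric.mem_thickening_iff.mpr ⟨q, hq, h1⟩, ?_⟩
    calc dist x y ≤ dist x q + dist q y := dist_triangle _ _ _
      _ < 2 * s := by rw [dist_comm q y]; linarith
  have hTm : MeasurableSet T := by
    refine MeasurableSet.inter ?_ ?_
    · exact (Metric.isOpen_thickening.preimage continuous_fst).measurableSet
    · exact (isOpen_lt (by fun_prop : Continuous fun p : ℂ × ℂ => dist p.1 p.2)
        continuous_const).measurableSet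
  refine (measure_mono hsub).trans ?_
  rw [Measure.prod_apply hTm]
  have hb : ∀ x : ℂ, volume (Prod.mk x ⁻¹' T) ≤
      (Metric.thickening s (frontier F)).indicator
        (fun _ => ENNReal.ofReal (4 * Real.pi * s ^ 2)) x := by
    intro x
    by_cases hx : x ∈ Metric.thickening s (frontier F)
    · rw [Set.indicator_of_mem hx]
      have h1 : Prod.mk x ⁻¹' T ⊆ Metric.ball x (2 * s) := by
        intro y hy
        rw [Metric.mem_ball, dist_comm]
        exact hy.2
      refine (measure_mono h1).trans ?_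
      rw [Complex.volume_ball]
      by_cases hs : 0 ≤ s
      · rw [← ENNReal.ofReal_pow (by positivity), ← NNReal.coe_real_pi, ← ENNReal.ofReal_coe_nnreal,
          ← ENNReal.ofReal_mul (by positivity)]
        apply ENNReal.ofReal_le_ofReal
        nlinarith
      · rw [ENNReal.ofReal_of_nonpos (by linarith)]
        simp
    · rw [Set.indicator_of_notMem hx]
      have : Prod.mk x ⁻¹' T = ∅ := by
        ext y
        simp only [Set.mem_preimage, hT, Set.mem_ofPred_eq, Set.mem_empty_iff_false, iff_false]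
        exact fun h => hx h.1
      rw [this, measure_empty]
  refine (lintegral_mono hb).trans ?_
  rw [lintegral_indicator Metric.isOpen_thickening.measurableSet, lintegral_const,
    Measure.restrict_apply_univ, mul_comm]

theorem vbad_measure (F : Set ℂ) (hF : IsCompact F) (s s' : ℝ) (hs : 0 < s) (hss : s ≤ s') :
    ((volume : Measure ℂ).prod volume) (VBad s s' F) ≤
      ENNReal.ofReal (((s' / s) ^ 4 - 1) * (4 * Real.pi * s ^ 2)) *
        volume (Metric.thickening s (frontier F)) := by
  refine (measure_mono (V10_sub hF hss)).trans ?_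
  refine (shell_prod (V10_D F) (V10_bounded hF) s s' hs hss).trans ?_
  have h1 : 0 ≤ (s' / s) ^ 4 - 1 := by
    have : 1 ≤ s' / s := (one_le_div hs).mpr hss
    have := one_le_pow₀ this (n := 4)
    linarith
  rw [ENNReal.ofReal_mul h1, mul_assoc, mul_comm (ENNReal.ofReal (4 * Real.pi * s ^ 2))]
  gcongr
  exact V10_thick F s

theorem measurableSet_VBad (F : Set ℂ) (hF : IsCompact F) (s s' : ℝ) :
    MeasurableSet (VBad s s' F) := by
  have h1 : IsClosed {p : ℂ × ℂ | dist p.1 p.2 ≤ 2 * s} :=
    isClosed_le (by fun_prop) (by fun_prop)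
  have h4 : ∀ t : ℝ, IsClosed {p : ℂ × ℂ | ∃ q ∈ F, dist p.1 q ≤ t ∧ dist p.2 q ≤ t} := fun t =>
    V10_proj F hF ({z : (ℂ × ℂ) × ℂ | dist z.1.1 z.2 ≤ t} ∩ {z | dist z.1.2 z.2 ≤ t})
      (IsClosed.inter (isClosed_le (by fun_prop) (by fun_prop))
        (isClosed_le (by fun_prop) (by fun_prop)))
  exact h1.measurableSet.inter ((h4 s').measurableSet.inter (h4 s).measurableSet.compl)

end MP412
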