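import Pool.Agent.Lib.MP_412417_pr.V.VDefs
import Pool.Agent.Lib.MP_412417_pr.P0
import Pool.Agent.Lib.MP_412417_pr.G2

/-!
Row 412-V2: crossings of a finite union of pieces and chains.

Adapt the proof of `crosses_iff` (file G2.lean) with the sets `closedBall x s ∩ K i`, which are closed and preconnected, in place of
`closedBall x s ∩ K`.
-/

set_option autoImplicit false

open MeasureTheory Set
open scoped ENNReal Pointwise

namespace MP412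

private theorem V2_step {ι : Type} (s : ℝ) (K : ι → Set ℂ) (X : Set ℂ)
    (hloc : ∀ i x, IsPreconnected (Metric.closedBall x s ∩ K i)) {p p' : ℂ × ι} (hx : p.1 ∈ X)
    (h : Relation.ReflTransGen (fun a b => a.1 ∈ X ∧ b.1 ∈ X ∧ VLink (2 * s) s K a b) p p') :
    ∃ C : Set ℂ, C ⊆ (⋃ x ∈ X, Metric.closedBall x s) ∩ (⋃ i, K i) ∧ IsPreconnected C ∧
      Metric.closedBall p.1 s ∩ K p.2 ⊆ C ∧ Metric.closedBall p'.1 s ∩ K p'.2 ⊆ C := by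
  have hsub : ∀ z ∈ X, ∀ i, Metric.closedBall z s ∩ K i ⊆
      (⋃ x ∈ X, Metric.closedBall x s) ∩ (⋃ i, K i) := by
    intro z hz i q hq
    exact ⟨mem_iUnion₂.2 ⟨z, hz, hq.1⟩, mem_iUnion.2 ⟨i, hq.2⟩⟩
  induction h with
  | refl => exact ⟨_, hsub p.1 hx p.2, hloc p.2 p.1, subset_rfl, subset_rfl⟩
  | @tail b c _ hbc ih =>
    obtain ⟨C, h1, h2, h3, h4⟩ := ih
    obtain ⟨_, hc, _, q, hq, hbq, hcq⟩ := hbc
    refine ⟨C ∪ Metric.closedBall c.1 s ∩ K c.2, union_subset h1 (hsub c.1 hc c.2), ?_,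
      h3.trans subset_union_left, subset_union_right⟩
    refine IsPreconnected.union q (h4 ⟨?_, hq.1⟩) ⟨?_, hq.2⟩ h2 (hloc c.2 c.1)
    · rw [Metric.mem_closedBall, dist_comm]
      exact hbq
    · rw [Metric.mem_closedBall, dist_comm]
      exact hcq

theorem vcrosses_iff {ι : Type} [Finite ι] (s : ℝ) (K : ι → Set ℂ) (A B X : Set ℂ)
    (hK : ∀ i, IsCompact (K i)) (hloc : ∀ i x, IsPreconnected (Metric.closedBall x s ∩ K i))
    (hA : A ⊆ ⋃ i, K i) (hB : B ⊆ ⋃ i, K i) (hX : X.Finite) :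
    Crosses (⋃ x ∈ X, Metric.closedBall x s) (⋃ i, K i) A B ↔ VChain (2 * s) s K A B X := by
  constructor
  · rintro ⟨C, hC, hpre, ⟨a, haC, haA⟩, ⟨b, hbC, hbB⟩⟩
    obtain ⟨x, hx, hax⟩ := mem_iUnion₂.1 (hC haC).1
    obtain ⟨y, hy, hby⟩ := mem_iUnion₂.1 (hC hbC).1
    obtain ⟨i, hi⟩ := mem_iUnion.1 (hC haC).2
    obtain ⟨j, hj⟩ := mem_iUnion.1 (hC hbC).2
    refine ⟨(x, i), (y, j), hx, hy, ⟨a, ⟨haA, hi⟩, by rw [dist_comm]; exact hax⟩,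
      ⟨b, ⟨hbB, hj⟩, by rw [dist_comm]; exact hby⟩, ?_⟩
    by_contra hxy
    set r : ℂ × ι → ℂ × ι → Prop := fun a b => a.1 ∈ X ∧ b.1 ∈ X ∧ VLink (2 * s) s K a b with hr
    set R : Set (ℂ × ι) := {z | z.1 ∈ X ∧ Relation.ReflTransGen r (x, i) z} with hR
    set R' : Set (ℂ × ι) := {z | z.1 ∈ X ∧ ¬ Relation.ReflTransGen r (x, i) z} with hR'
    have hXf : (X ×ˢ (univ : Set ι)).Finite := hX.prod finite_univ
    have hRf : R.Finite := hXf.subset fun z hz => ⟨hz.1, mem_univ _⟩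
    have hRf' : R'.Finite := hXf.subset fun z hz => ⟨hz.1, mem_univ _⟩
    have cl : ∀ z : ℂ × ι, IsClosed (Metric.closedBall z.1 s ∩ K z.2) := fun z =>
      Metric.isClosed_closedBall.inter (hK z.2).isClosed
    have c1 : IsClosed (⋃ z ∈ R, Metric.closedBall z.1 s ∩ K z.2) :=
      hRf.isClosed_biUnion fun z _ => cl z
    have c2 : IsClosed (⋃ z ∈ R', Metric.closedBall z.1 s ∩ K z.2) :=
      hRf'.isClosed_biUnion fun z _ => cl z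
    have hcov : C ⊆ (⋃ z ∈ R, Metric.closedBall z.1 s ∩ K z.2) ∪
        ⋃ z ∈ R', Metric.closedBall z.1 s ∩ K z.2 := by
      intro q hq
      obtain ⟨z, hz, hqz⟩ := mem_iUnion₂.1 (hC hq).1
      obtain ⟨k, hk⟩ := mem_iUnion.1 (hC hq).2
      by_cases h : Relation.ReflTransGen r (x, i) (z, k)
      · exact Or.inl (mem_iUnion₂.2 ⟨(z, k), ⟨hz, h⟩, hqz, hk⟩)
      · exact Or.inr (mem_iUnion₂.2 ⟨(z, k), ⟨hz, h⟩, hqz, hk⟩)
    have n1 : (C ∩ ⋃ z ∈ R, Metric.closedBall z.1 s ∩ K z.2).Nonempty :=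
      ⟨a, haC, mem_iUnion₂.2 ⟨(x, i), ⟨hx, Relation.ReflTransGen.refl⟩, hax, hi⟩⟩
    have n2 : (C ∩ ⋃ z ∈ R', Metric.closedBall z.1 s ∩ K z.2).Nonempty :=
      ⟨b, hbC, mem_iUnion₂.2 ⟨(y, j), ⟨hy, hxy⟩, hby, hj⟩⟩
    obtain ⟨q, _, hq1, hq2⟩ := isPreconnected_closed_iff.1 hpre _ _ c1 c2 hcov n1 n2
    obtain ⟨z, hz, hqz, hqK⟩ := mem_iUnion₂.1 hq1
    obtain ⟨z', hz', hqz', hqK'⟩ := mem_iUnion₂.1 hq2
    have d1 : dist z.1 q ≤ s := by rw [dist_comm]; exact hqz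
    have d2 : dist z'.1 q ≤ s := by rw [dist_comm]; exact hqz'
    have hlink : r z z' := by
      refine ⟨hz.1, hz'.1, ?_, q, ⟨hqK, hqK'⟩, d1, d2⟩
      have := dist_triangle_right z.1 z'.1 q
      linarith
    exact hz'.2 (hz.2.tail hlink)
  · rintro ⟨p, p', hx, hy, ⟨a, haA, hxa⟩, ⟨b, hbB, hyb⟩, h⟩
    obtain ⟨C, h1, h2, h3, h4⟩ := V2_step s K X hloc hx h
    refine ⟨C, h1, h2, ⟨a, h3 ⟨?_, haA.2⟩, haA.1⟩, ⟨b, h4 ⟨?_, hbB.2⟩, hbB.1⟩⟩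
    · rw [Metric.mem_closedBall, dist_comm]
      exact hxa
    · rw [Metric.mem_closedBall, dist_comm]
      exact hyb

end MP412
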