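import Pool.Agent.Lib.MP_412417_pr.V.V5

/-!
Row 412-V6: summation of the steps.

Adapt the proof of `bulk` (file G6.lean).
-/

set_option autoImplicit false

open MeasureTheory Set
open scoped ENNReal Pointwise

namespace MP412

private theorem V6_steps {p : ℝ → ℝ} {E δ v w η : ℝ} (hη : 0 < η) (hvw : v ≤ w)
    (h : ∀ a b : ℝ, v ≤ a → a ≤ b → b ≤ w → b - a ≤ η → p b ≤ p a + E * (b - a) / δ ^ 2) :
    p w ≤ p v + E * (w - v) / δ ^ 2 := by
  obtain ⟨M, hM⟩ := exists_nat_ge ((w - v) / η)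
  have hM0 : (0 : ℝ) < (M : ℝ) + 1 := by positivity
  have hlen : (w - v) / ((M : ℝ) + 1) ≤ η := by
    rw [div_le_iff₀ hM0]
    rw [div_le_iff₀ hη] at hM
    nlinarith
  have hlen0 : 0 ≤ (w - v) / ((M : ℝ) + 1) := div_nonneg (by linarith) hM0.le
  have key : ∀ i : ℕ, i ≤ M + 1 → p (v + i * ((w - v) / ((M : ℝ) + 1))) ≤
      p v + E * (i * ((w - v) / ((M : ℝ) + 1))) / δ ^ 2 := by
    intro i
    induction i with
    | zero => intro _; simp
    | succ i ih =>
      intro hi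
      have h1 := ih (by omega)
      have hi' : ((i : ℝ) + 1) ≤ (M : ℝ) + 1 := by exact_mod_cast hi
      have h2 : v + ((i + 1 : ℕ) : ℝ) * ((w - v) / ((M : ℝ) + 1)) ≤ w := by
        have h3 : ((i + 1 : ℕ) : ℝ) * ((w - v) / ((M : ℝ) + 1)) ≤
            ((M : ℝ) + 1) * ((w - v) / ((M : ℝ) + 1)) := by
          push_cast
          exact mul_le_mul_of_nonneg_right hi' hlen0
        rw [mul_div_cancel₀ _ hM0.ne'] at h3
        linarith
      have h4 := h (v + i * ((w - v) / ((M : ℝ) + 1)))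
        (v + ((i + 1 : ℕ) : ℝ) * ((w - v) / ((M : ℝ) + 1)))
        (by linarith [mul_nonneg (Nat.cast_nonneg (α := ℝ) i) hlen0])
        (by push_cast; linarith) h2 (by push_cast; linarith)
      have h5 : E * (v + ((i + 1 : ℕ) : ℝ) * ((w - v) / ((M : ℝ) + 1)) -
          (v + i * ((w - v) / ((M : ℝ) + 1)))) / δ ^ 2 +
          E * (i * ((w - v) / ((M : ℝ) + 1))) / δ ^ 2 =
          E * (((i + 1 : ℕ) : ℝ) * ((w - v) / ((M : ℝ) + 1))) / δ ^ 2 := by
        push_cast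
        ring
      linarith
  have h1 := key (M + 1) le_rfl
  have h2 : ((M + 1 : ℕ) : ℝ) * ((w - v) / ((M : ℝ) + 1)) = w - v := by
    push_cast
    rw [mul_div_cancel₀ _ hM0.ne']
  rw [h2] at h1
  simpa using h1

theorem vbulk {ι : Type} [Finite ι] (r : ℝ) (hr : 0 < r) (K : ι → Set ℂ) (N A B : Set ℂ)
    (hK : ∀ i, IsCompact (K i)) (s₀ : ℝ) (hs₀ : 0 < s₀)
    (hloc : ∀ i x s, s ≤ s₀ → IsPreconnected (Metric.closedBall x s ∩ K i))
    (hA : IsCompact A) (hB : IsCompact B) (hN : MeasurableSet N)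
    (hNb : Bornology.IsBounded N) (ρ : ℝ) (hρ : 0 < ρ)
    (hKN : Metric.cthickening ρ (⋃ i, K i) ⊆ N) :
    ∃ C δ₀ : ℝ, 0 < C ∧ 0 < δ₀ ∧ ∀ δ, 0 < δ → δ ≤ δ₀ → ∀ s v w : ℝ, r * δ / 2 ≤ s →
      s ≤ 2 * r * δ → 3 / 2 * s ≤ v → v ≤ w → w ≤ 2 * s →
      (poisson (lam δ N) {c | VChain w s K A B (pts c)}).toReal ≤
        (poisson (lam δ N) {c | VChain v s K A B (pts c)}).toReal + C * (w - v) / δ ^ 2 := by
  obtain ⟨C, δ₀, hC, hδ₀, hstep⟩ := vstep r hr K N A B hK s₀ hs₀ hloc hA hB hN hNb ρ hρ hKN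
  refine ⟨2 * C, δ₀, by positivity, hδ₀, ?_⟩
  intro δ hδ hδ' s v w h1 h2 h3 h4 h5
  have hfin := isFiniteMeasure_lam δ hNb
  have hprob : IsProbabilityMeasure (poisson (lam δ N)) := isProbabilityMeasure_poisson _
  refine V6_steps (p := fun u => (poisson (lam δ N) {c | VChain u s K A B (pts c)}).toReal)
    (η := δ ^ 3 / (2 * C)) (by positivity) h4 ?_
  intro a b ha hab hb hlen
  have hD := hstep δ hδ hδ' s a b h1 h2 (by linarith) hab (by linarith)
  set D := (poisson (lam δ N)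
    {c | VChain b s K A B (pts c) ∧ ¬ VChain a s K A B (pts c)}).toReal with hDdef
  have hD0 : 0 ≤ D := ENNReal.toReal_nonneg
  have hsub : (poisson (lam δ N) {c | VChain b s K A B (pts c)}).toReal ≤
      (poisson (lam δ N) {c | VChain a s K A B (pts c)}).toReal + D := by
    rw [hDdef, ← ENNReal.toReal_add (measure_ne_top _ _) (measure_ne_top _ _)]
    refine ENNReal.toReal_mono (ENNReal.add_ne_top.mpr ⟨measure_ne_top _ _, measure_ne_top _ _⟩) ?_
    refine (measure_mono ?_).trans (measure_union_le _ _)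
    intro c hc
    by_cases h : VChain a s K A B (pts c)
    · exact Or.inl h
    · exact Or.inr ⟨hc, h⟩
  have hhalf : C * (b - a) / δ ^ 2 * (D / δ) ≤ D / 2 := by
    have e1 : C * (b - a) / δ ^ 2 * (D / δ) = (C * (b - a) / δ ^ 3) * D := by
      field_simp
    have e2 : C * (b - a) / δ ^ 3 ≤ 1 / 2 := by
      rw [div_le_iff₀ (by positivity)]
      rw [le_div_iff₀ (by positivity)] at hlen
      linarith
    rw [e1]
    nlinarith
  have hfinal : D ≤ 2 * C * (b - a) / δ ^ 2 := by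
    have e3 : C * (b - a) / δ ^ 2 * (1 + D / δ) =
        C * (b - a) / δ ^ 2 + C * (b - a) / δ ^ 2 * (D / δ) := by ring
    have e4 : 2 * C * (b - a) / δ ^ 2 = 2 * (C * (b - a) / δ ^ 2) := by ring
    rw [e3] at hD
    rw [e4]
    linarith
  exact hsub.trans (by linarith)

end MP412
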