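import Pool.Agent.Lib.MP_412417_pr.V.VDefs

/-!
Row 412-V9: away from bad points and bad pairs the radius of the common points can be reduced.

Adapt G9.lean. For a link `(x, i), (y, j)` with `x ≠ y` use `h2`. For `x = y` let `F = K i ∩ K j`: if `x ∈ F` take `q = x`, otherwise the segment from
`x` to the common point `q ∈ F`, `dist x q ≤ s'`, meets `frontier F`, so `infDist x (frontier F) ≤ s'`, hence `≤ s` by `h1`, and it is attained.
-/

set_option autoImplicit false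

open MeasureTheory Set
open scoped ENNReal Pointwise

namespace MP412

private theorem V9_attain {s s' : ℝ} {x : ℂ} {F : Set ℂ} (hF : IsCompact F)
    (hb : ¬ (s < Metric.infDist x F ∧ Metric.infDist x F ≤ s')) (h : ∃ q ∈ F, dist x q ≤ s') :
    ∃ q ∈ F, dist x q ≤ s := by
  obtain ⟨q, hq, hd⟩ := h
  obtain ⟨y, hy, he⟩ := hF.exists_infDist_eq_dist ⟨q, hq⟩ x
  have h1 : Metric.infDist x F ≤ s' := (Metric.infDist_le_dist_of_mem hq).trans hd
  refine ⟨y, hy, ?_⟩
  rw [← he]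
  by_contra hcon
  exact hb ⟨not_le.1 hcon, h1⟩

private theorem V9_near {s s' : ℝ} (hs : 0 < s) {x : ℂ} {K : Set ℂ} (hK : IsCompact K)
    (hb : ¬ (s < Metric.infDist x (frontier K) ∧ Metric.infDist x (frontier K) ≤ s'))
    (h : ∃ q ∈ K, dist x q ≤ s') : ∃ q ∈ K, dist x q ≤ s := by
  by_cases hx : x ∈ K
  · exact ⟨x, hx, by rw [dist_self]; exact hs.le⟩
  obtain ⟨q, hq, hd⟩ := h
  have hne : (segment ℝ x q ∩ frontier K).Nonempty := by
    have hpre : IsPreconnected (segment ℝ x q) := (convex_segment x q).isPreconnected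
    by_contra hcon
    rw [Set.not_nonempty_iff_eq_empty] at hcon
    have h1 : segment ℝ x q ⊆ interior K ∪ Kᶜ := by
      intro z hz
      by_cases hzK : z ∈ K
      · left
        by_contra hzi
        have : z ∈ frontier K := ⟨subset_closure hzK, hzi⟩
        have h2 : z ∈ segment ℝ x q ∩ frontier K := ⟨hz, this⟩
        rw [hcon] at h2
        exact h2
      · exact Or.inr hzK
    have hqi : q ∈ interior K := by
      rcases h1 (right_mem_segment ℝ x q) with h2 | h2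
      · exact h2
      · exact absurd hq h2
    obtain ⟨z, _, hz1, hz2⟩ := hpre (interior K) Kᶜ isOpen_interior hK.isClosed.isOpen_compl h1
      ⟨q, right_mem_segment ℝ x q, hqi⟩ ⟨x, left_mem_segment ℝ x q, hx⟩
    exact hz2 (interior_subset hz1)
  obtain ⟨z, hz, hzf⟩ := hne
  have hdz : dist x z ≤ s' := by
    refine le_trans ?_ hd
    rw [segment_eq_image_lineMap] at hz
    obtain ⟨t, ht, rfl⟩ := hz
    rw [dist_left_lineMap, Real.norm_eq_abs, abs_of_nonneg ht.1]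
    have := dist_nonneg (x := x) (y := q)
    nlinarith [ht.2]
  have hfc : IsCompact (frontier K) := hK.of_isClosed_subset isClosed_frontier
    hK.isClosed.frontier_subset
  obtain ⟨w, hw, hdw⟩ := V9_attain hfc hb ⟨z, hzf, hdz⟩
  exact ⟨w, hK.isClosed.frontier_subset hw, hdw⟩

theorem vchain_shrink {ι : Type} (s s' : ℝ) (hs : 0 < s) (hss : s ≤ s') (K : ι → Set ℂ)
    (A B X : Set ℂ) (hK : ∀ i, IsCompact (K i)) (hA : IsCompact A) (hB : IsCompact B)
    (h : VChain (2 * s) s' K A B X)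
    (hA' : ∀ x ∈ X, ∀ i, ¬ (s < Metric.infDist x (A ∩ K i) ∧ Metric.infDist x (A ∩ K i) ≤ s'))
    (hB' : ∀ x ∈ X, ∀ i, ¬ (s < Metric.infDist x (B ∩ K i) ∧ Metric.infDist x (B ∩ K i) ≤ s'))
    (h1 : ∀ x ∈ X, ∀ i j, ¬ (s < Metric.infDist x (frontier (K i ∩ K j)) ∧
      Metric.infDist x (frontier (K i ∩ K j)) ≤ s'))
    (h2 : ∀ x ∈ X, ∀ y ∈ X, x ≠ y → ∀ i j, (x, y) ∉ VBad s s' (K i ∩ K j)) :
    VChain (2 * s) s K A B X := by
  obtain ⟨p, p', hp, hp', e1, e2, h3⟩ := h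
  refine ⟨p, p', hp, hp', V9_attain (hA.inter (hK p.2)) (hA' p.1 hp p.2) e1,
    V9_attain (hB.inter (hK p'.2)) (hB' p'.1 hp' p'.2) e2, ?_⟩
  have hstep : ∀ a b : ℂ × ι, (a.1 ∈ X ∧ b.1 ∈ X ∧ VLink (2 * s) s' K a b) →
      (a.1 ∈ X ∧ b.1 ∈ X ∧ VLink (2 * s) s K a b) := by
    rintro a b ⟨ha, hb, hl1, q, hq, hq1, hq2⟩
    refine ⟨ha, hb, hl1, ?_⟩
    by_cases hab : a.1 = b.1
    · obtain ⟨w, hw, hdw⟩ := V9_near hs ((hK a.2).inter (hK b.2)) (h1 a.1 ha a.2 b.2)
        ⟨q, hq, hq1⟩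
      exact ⟨w, hw, hdw, by rw [← hab]; exact hdw⟩
    · by_contra hcon
      exact h2 a.1 ha b.1 hb hab a.2 b.2 ⟨hl1, ⟨q, hq, hq1, hq2⟩, hcon⟩
  clear e2 hp'
  induction h3 with
  | refl => exact Relation.ReflTransGen.refl
  | tail _ hl ih => exact Relation.ReflTransGen.tail ih (hstep _ _ hl)

end MP412
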