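import Pool.Agent.Lib.MP_412417_pr.P3
import Pool.Agent.Lib.MP_412417_pr.V.V1
import Pool.Agent.Lib.MP_412417_pr.V.V2
import Pool.Agent.Lib.MP_412417_pr.V.V6
import Pool.Agent.Lib.MP_412417_pr.G7
import Pool.Agent.Lib.MP_412417_pr.V.V9
import Pool.Agent.Lib.MP_412417_pr.V.V10
import Pool.Agent.Lib.MP_412417_pr.L0

/-!
Row 412-V11: a change of the radius by the relative amount `δ^2` does not matter. (helper28)
-/

set_option autoImplicit false

open MeasureTheory Set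
open scoped ENNReal Pointwise

namespace MP412

private theorem V11_union {κ : Type} [Fintype κ] (μ : Measure Conf) [IsProbabilityMeasure μ]
    (f : κ → Set Conf) (c : ℝ) (h : ∀ i, (μ (f i)).toReal ≤ c) :
    (μ (⋃ i, f i)).toReal ≤ Fintype.card κ * c := by
  have h1 := ENNReal.toReal_mono (ENNReal.sum_ne_top.mpr fun i _ => measure_ne_top μ (f i))
    (measure_iUnion_fintype_le μ f)
  rw [ENNReal.toReal_sum fun i _ => measure_ne_top μ (f i)] at h1
  refine h1.trans ((Finset.sum_le_sum fun i _ => h i).trans (le_of_eq ?_))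
  rw [Finset.sum_const, Finset.card_univ, nsmul_eq_mul]

private theorem V11_chain_eq {ι : Type} [Finite ι] {s s₀ : ℝ} (hs : s ≤ s₀) {K : ι → Set ℂ}
    {A B : Set ℂ} (hK : ∀ i, IsCompact (K i))
    (hloc : ∀ i x s, s ≤ s₀ → IsPreconnected (Metric.closedBall x s ∩ K i))
    (hAK : A ⊆ ⋃ i, K i) (hBK : B ⊆ ⋃ i, K i) :
    Ev s (⋃ i, K i) A B = {c | VChain (2 * s) s K A B (pts c)} := by
  ext c
  exact vcrosses_iff s K A B (pts c) hK (fun i x => hloc i x s hs) hAK hBK (finite_pts c)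

private theorem V11_point (N F : Set ℂ) (hNb : Bornology.IsBounded N) (hFb : Bornology.IsBounded F)
    (δ s s' M : ℝ) (hs : 0 < s) (hss : s ≤ s')
    (hb : volume (Metric.thickening s F) ≤ ENNReal.ofReal (M * s)) (hM : 0 ≤ M) :
    (poisson (lam δ N) {c | ∃ x ∈ pts c, s < Metric.infDist x F ∧
      Metric.infDist x F ≤ s'}).toReal ≤ (δ⁻¹) ^ 2 * (((s' / s) ^ 2 - 1) * (M * s)) := by
  have hfN : IsFiniteMeasure (lam δ N) := isFiniteMeasure_lam δ hNb
  have hm : MeasurableSet {x : ℂ | s < Metric.infDist x F ∧ Metric.infDist x F ≤ s'} :=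
    ((isOpen_lt continuous_const (Metric.continuous_infDist_pt F)).measurableSet).inter
      ((isClosed_le (Metric.continuous_infDist_pt F) continuous_const).measurableSet)
  have h1 := point_le (lam δ N) {x : ℂ | s < Metric.infDist x F ∧ Metric.infDist x F ≤ s'} hm
  have h2 := lam_le δ N {x : ℂ | s < Metric.infDist x F ∧ Metric.infDist x F ≤ s'}
  have h3 : volume {x : ℂ | s < Metric.infDist x F ∧ Metric.infDist x F ≤ s'} ≤
      ENNReal.ofReal ((s' / s) ^ 2 - 1) * ENNReal.ofReal (M * s) := by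
    have h4 := shell F hFb s s' hs hss
    have h5 : {x : ℂ | s < Metric.infDist x F ∧ Metric.infDist x F ≤ s'} ⊆
        {x : ℂ | s ≤ Metric.infDist x F ∧ Metric.infDist x F ≤ s'} := fun x hx => ⟨hx.1.le, hx.2⟩
    refine le_trans (measure_mono h5) (h4.trans ?_)
    gcongr
  have h0 : 0 ≤ (s' / s) ^ 2 - 1 := by
    have : 1 ≤ s' / s := by rw [le_div_iff₀ hs]; linarith
    nlinarith
  have h6 : poisson (lam δ N) {c | ∃ x ∈ pts c, s < Metric.infDist x F ∧
      Metric.infDist x F ≤ s'} ≤ ENNReal.ofReal ((δ⁻¹) ^ 2 * (((s' / s) ^ 2 - 1) * (M * s))) := by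
    rw [ENNReal.ofReal_mul (sq_nonneg _), ENNReal.ofReal_mul h0]
    refine h1.trans (h2.trans ?_)
    gcongr
  have h7 := ENNReal.toReal_mono ENNReal.ofReal_ne_top h6
  rwa [ENNReal.toReal_ofReal (by positivity)] at h7

private theorem V11_bad (N F : Set ℂ) (hNb : Bornology.IsBounded N) (hF : IsCompact F)
    (δ s s' M : ℝ) (hs : 0 < s) (hss : s ≤ s')
    (hb : volume (Metric.thickening s (frontier F)) ≤ ENNReal.ofReal (M * s)) (hM : 0 ≤ M) :
    (poisson (lam δ N) {c | ∃ x ∈ pts c, ∃ y ∈ pts c, x ≠ y ∧ (x, y) ∈ VBad s s' F}).toReal ≤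
      (δ⁻¹) ^ 4 * ((((s' / s) ^ 4 - 1) * (4 * Real.pi * s ^ 2)) * (M * s)) := by
  have hfN : IsFiniteMeasure (lam δ N) := isFiniteMeasure_lam δ hNb
  have h0 : 0 ≤ (s' / s) ^ 4 - 1 := by
    have : 1 ≤ s' / s := by rw [le_div_iff₀ hs]; linarith
    have := one_le_pow₀ (n := 4) this
    linarith
  have h1 := pair_le (lam δ N) (VBad s s' F) (measurableSet_VBad F hF s s') univ
  rw [measure_univ, mul_one] at h1
  have h6 : poisson (lam δ N) {c | ∃ x ∈ pts c, ∃ y ∈ pts c, x ≠ y ∧ (x, y) ∈ VBad s s' F} ≤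
      ENNReal.ofReal ((δ⁻¹) ^ 4 * ((((s' / s) ^ 4 - 1) * (4 * Real.pi * s ^ 2)) * (M * s))) := by
    refine le_trans (measure_mono ?_) (h1.trans ((lam_prod_le δ N _).trans ?_))
    · rintro c ⟨x, ⟨i, rfl⟩, y, ⟨j, rfl⟩, hne, hxy⟩
      have hij : i ≠ j := by
        rintro rfl
        exact hne rfl
      obtain ⟨c', c'', hc1, hc2⟩ := exists_isIns hij
      exact ⟨_, _, c', c'', hc1, hc2, hxy, mem_univ _⟩
    · rw [ENNReal.ofReal_mul (by positivity)]
      gcongr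
      refine (vbad_measure F hF s s' hs hss).trans ?_
      rw [ENNReal.ofReal_mul (q := M * s) (by positivity)]
      gcongr
  have h7 := ENNReal.toReal_mono ENNReal.ofReal_ne_top h6
  rwa [ENNReal.toReal_ofReal (by positivity)] at h7

private theorem V11_thin {ι : Type} [Fintype ι] (K : ι → Set ℂ) (Cb : ℝ)
    (hb : ∀ i s, 0 < s → s ≤ 1 →
      volume (Metric.thickening s (frontier (K i))) ≤ ENNReal.ofReal (Cb * s))
    (F : Set ℂ) (hF : F ⊆ ⋃ i, frontier (K i)) (s : ℝ) (hs : 0 < s) (hs1 : s ≤ 1) :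
    volume (Metric.thickening s F) ≤ ENNReal.ofReal (Fintype.card ι * |Cb| * s) := by
  have h1 : Metric.thickening s F ⊆ ⋃ i, Metric.thickening s (frontier (K i)) := by
    intro x hx
    rw [Metric.mem_thickening_iff] at hx
    obtain ⟨z, hz, hd⟩ := hx
    obtain ⟨i, hi⟩ := mem_iUnion.mp (hF hz)
    exact mem_iUnion.mpr ⟨i, Metric.mem_thickening_iff.mpr ⟨z, hi, hd⟩⟩
  refine (measure_mono h1).trans ((measure_iUnion_fintype_le _ _).trans
    ((Finset.sum_le_sum (g := fun _ => ENNReal.ofReal (|Cb| * s)) fun i _ => ?_).trans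
      (le_of_eq ?_)))
  · refine (hb i s hs hs1).trans (ENNReal.ofReal_le_ofReal ?_)
    exact mul_le_mul_of_nonneg_right (le_abs_self _) hs.le
  · rw [Finset.sum_const, Finset.card_univ, nsmul_eq_mul, mul_assoc,
      ENNReal.ofReal_mul (p := (Fintype.card ι : ℝ)) (Nat.cast_nonneg _), ENNReal.ofReal_natCast]

private theorem V11_frontier {ι : Type} (K : ι → Set ℂ)
    (hL : IsCompact (⋃ i, K i)) : frontier (⋃ i, K i) ⊆ ⋃ i, frontier (K i) := by
  intro x hx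
  have h1 : x ∈ ⋃ i, K i := hL.isClosed.frontier_subset hx
  obtain ⟨i, hi⟩ := mem_iUnion.mp h1
  refine mem_iUnion.mpr ⟨i, subset_closure hi, fun h2 => hx.2 ?_⟩
  exact interior_mono (subset_iUnion K i) h2

private theorem V11_inter {ι : Type} (K : ι → Set ℂ) (hK : ∀ i, IsCompact (K i)) (i j : ι) :
    frontier (K i ∩ K j) ⊆ ⋃ i, frontier (K i) := by
  intro x hx
  have h1 : x ∈ K i ∩ K j := ((hK i).isClosed.inter (hK j).isClosed).frontier_subset hx
  by_cases h2 : x ∈ interior (K i)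
  · refine mem_iUnion.mpr ⟨j, subset_closure h1.2, fun h3 => hx.2 ?_⟩
    rw [interior_inter]
    exact ⟨h2, h3⟩
  · exact mem_iUnion.mpr ⟨i, subset_closure h1.1, h2⟩

theorem vradius_stable {ι : Type} [Finite ι] (r : ℝ) (hr : 0 < r) (K : ι → Set ℂ) (N A B : Set ℂ)
    (hK : ∀ i, IsCompact (K i)) (s₀ : ℝ) (hs₀ : 0 < s₀)
    (hloc : ∀ i x s, s ≤ s₀ → IsPreconnected (Metric.closedBall x s ∩ K i))
    (Cb : ℝ) (hb : ∀ i s, 0 < s → s ≤ 1 →
      volume (Metric.thickening s (frontier (K i))) ≤ ENNReal.ofReal (Cb * s))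
    (hA : IsClosed A) (hAK : A ⊆ frontier (⋃ i, K i))
    (hB : IsClosed B) (hBK : B ⊆ frontier (⋃ i, K i)) (hN : MeasurableSet N)
    (hNb : Bornology.IsBounded N) (ρ : ℝ) (hρ : 0 < ρ)
    (hKN : Metric.cthickening ρ (⋃ i, K i) ⊆ N) (C₁ : ℝ) (hC₁ : 0 ≤ C₁) :
    ∃ C δ₀ : ℝ, 0 < δ₀ ∧ ∀ δ, 0 < δ → δ ≤ δ₀ →
      (poisson (lam δ N) (Ev (r * δ * (1 + C₁ * δ ^ 2)) (⋃ i, K i) A B)).toReal ≤
        (poisson (lam δ N) (Ev (r * δ * (1 - C₁ * δ ^ 2)) (⋃ i, K i) A B)).toReal + C * δ := by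
  have hL : IsCompact (⋃ i, K i) := isCompact_iUnion hK
  have hfL : frontier (⋃ i, K i) ⊆ ⋃ i, K i := hL.isClosed.frontier_subset
  have hAK' : A ⊆ ⋃ i, K i := hAK.trans hfL
  have hBK' : B ⊆ ⋃ i, K i := hBK.trans hfL
  have hAc : IsCompact A := hL.of_isClosed_subset hA hAK'
  have hBc : IsCompact B := hL.of_isClosed_subset hB hBK'
  obtain ⟨Cu, δ₁, hCu, hδ₁, hbulk⟩ := vbulk r hr K N A B hK s₀ hs₀ hloc hAc hBc hN hNb ρ hρ hKN
  cases nonempty_fintype ι
  set m : ℝ := (Fintype.card ι : ℝ) with hm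
  have hm0 : 0 ≤ m := Nat.cast_nonneg _
  set M : ℝ := m * |Cb| with hM
  have hM0 : 0 ≤ M := mul_nonneg hm0 (abs_nonneg _)
  have hthin : ∀ F : Set ℂ, F ⊆ ⋃ i, frontier (K i) → ∀ s, 0 < s → s ≤ 1 →
      volume (Metric.thickening s F) ≤ ENNReal.ofReal (M * s) := fun F hF s hs hs1 =>
    V11_thin K Cb hb F hF s hs hs1
  have hfr : frontier (⋃ i, K i) ⊆ ⋃ i, frontier (K i) := V11_frontier K hL
  set D : ℝ := min δ₁ (min (1 / (7 * (C₁ + 1))) (min (1 / (r + 1)) (s₀ / (2 * r)))) with hD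
  have hDpos : 0 < D := lt_min hδ₁ (lt_min (by positivity) (lt_min (by positivity) (by positivity)))
  refine ⟨Cu * (4 * r * C₁) + m * (8 * C₁ * M * r) + m * (8 * C₁ * M * r) +
    m * (m * (8 * C₁ * M * r)) + m * (m * (104 * Real.pi * C₁ * r ^ 3 * M)), D, hDpos,
    fun δ hδ hδD => ?_⟩
  have b1 : δ ≤ δ₁ := hδD.trans (min_le_left _ _)
  have b2 : δ ≤ 1 / (7 * (C₁ + 1)) := hδD.trans (le_trans (min_le_right _ _) (min_le_left _ _))
  have b3 : δ ≤ 1 / (r + 1) := hδD.trans (le_trans (min_le_right _ _)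
    (le_trans (min_le_right _ _) (min_le_left _ _)))
  have b4 : δ ≤ s₀ / (2 * r) := hδD.trans (le_trans (min_le_right _ _)
    (le_trans (min_le_right _ _) (min_le_right _ _)))
  rw [le_div_iff₀ (by positivity)] at b2 b3 b4
  have c0 : δ ≤ 1 := by nlinarith
  have c1 : C₁ * δ ≤ 1 / 7 := by nlinarith
  have c2 : r * δ ≤ 1 := by nlinarith
  set η : ℝ := C₁ * δ ^ 2 with hη
  have hη0 : 0 ≤ η := by positivity
  have hη1 : η ≤ 1 / 7 := by
    rw [hη]; nlinarith [mul_nonneg hC₁ hδ.le]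
  have hrδ : 0 < r * δ := mul_pos hr hδ
  set s : ℝ := r * δ * (1 - η) with hs
  set s' : ℝ := r * δ * (1 + η) with hs'
  have hs0 : 0 < s := mul_pos hrδ (by linarith)
  have hss : s ≤ s' := by rw [hs, hs']; nlinarith
  have hs'0 : 0 < s' := lt_of_lt_of_le hs0 hss
  have hs1 : s ≤ r * δ := by rw [hs]; nlinarith
  have hs2 : r * δ / 2 ≤ s := by rw [hs]; nlinarith
  have hs's₀ : s' ≤ s₀ := by rw [hs']; nlinarith
  have hfN : IsFiniteMeasure (lam δ N) := isFiniteMeasure_lam δ hNb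
  rw [V11_chain_eq hs's₀ hK hloc hAK' hBK', V11_chain_eq (hss.trans hs's₀) hK hloc hAK' hBK']
  -- the bulk
  have e1 := hbulk δ hδ b1 s' (2 * s) (2 * s') (by linarith) (by nlinarith)
    (by rw [hs, hs']; nlinarith) (by linarith) le_rfl
  have e1' : Cu * (2 * s' - 2 * s) / δ ^ 2 = Cu * (4 * r * C₁) * δ := by
    rw [hs, hs', hη]
    field_simp
    ring
  rw [e1'] at e1
  have h3 : (s' / s) ^ 2 - 1 ≤ 8 * η := by
    rw [hs, hs', mul_div_mul_left _ _ hrδ.ne', div_pow, sub_le_iff_le_add,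
      div_le_iff₀ (by nlinarith)]
    nlinarith [mul_nonneg hη0 hη0, mul_nonneg (mul_nonneg hη0 hη0) hη0]
  have h4 : 1 ≤ s' / s := by rw [le_div_iff₀ hs0]; linarith
  have h5 : 0 ≤ (s' / s) ^ 2 - 1 := by nlinarith
  -- the boundary
  have e2 : ∀ F : Set ℂ, F ⊆ ⋃ i, frontier (K i) → (poisson (lam δ N)
      {c | ∃ x ∈ pts c, s < Metric.infDist x F ∧ Metric.infDist x F ≤ s'}).toReal ≤
      8 * C₁ * M * r * δ := by
    intro F hF
    have hFb : Bornology.IsBounded F := by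
      refine (Bornology.isBounded_iUnion.mpr fun i => ?_).subset hF
      exact ((hK i).isBounded.subset (hK i).isClosed.frontier_subset)
    refine (V11_point N F hNb hFb δ s s' M hs0 hss (hthin F hF s hs0 (hs1.trans c2)) hM0).trans ?_
    calc (δ⁻¹) ^ 2 * (((s' / s) ^ 2 - 1) * (M * s))
        ≤ (δ⁻¹) ^ 2 * ((8 * η) * (M * (r * δ))) := by gcongr
      _ = 8 * C₁ * M * r * δ := by rw [hη]; field_simp
  -- the bad pairs
  have e3 : ∀ i j, (poisson (lam δ N)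
      {c | ∃ x ∈ pts c, ∃ y ∈ pts c, x ≠ y ∧ (x, y) ∈ VBad s s' (K i ∩ K j)}).toReal ≤
      104 * Real.pi * C₁ * r ^ 3 * M * δ := by
    intro i j
    refine (V11_bad N (K i ∩ K j) hNb ((hK i).inter (hK j)) δ s s' M hs0 hss
      (hthin _ (V11_inter K hK i j) s hs0 (hs1.trans c2)) hM0).trans ?_
    have h6 : (s' / s) ^ 4 - 1 ≤ 26 * η := by
      have h7 : (s' / s) ^ 4 = ((s' / s) ^ 2) ^ 2 := by ring
      rw [h7]
      nlinarith [mul_nonneg hη0 h5]
    have h8 : 0 ≤ (s' / s) ^ 4 - 1 := by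
      have := one_le_pow₀ (n := 4) h4
      linarith
    calc (δ⁻¹) ^ 4 * ((((s' / s) ^ 4 - 1) * (4 * Real.pi * s ^ 2)) * (M * s))
        ≤ (δ⁻¹) ^ 4 * (((26 * η) * (4 * Real.pi * (r * δ) ^ 2)) * (M * (r * δ))) := by gcongr
      _ = 104 * Real.pi * C₁ * r ^ 3 * M * δ := by rw [hη]; field_simp; ring
  -- the inclusion
  have e4 : {c : Conf | VChain (2 * s) s' K A B (pts c)} ⊆
      {c | VChain (2 * s) s K A B (pts c)} ∪
      ((⋃ i, {c | ∃ x ∈ pts c, s < Metric.infDist x (A ∩ K i) ∧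
        Metric.infDist x (A ∩ K i) ≤ s'}) ∪
      ((⋃ i, {c | ∃ x ∈ pts c, s < Metric.infDist x (B ∩ K i) ∧
        Metric.infDist x (B ∩ K i) ≤ s'}) ∪
      ((⋃ i, ⋃ j, {c | ∃ x ∈ pts c, s < Metric.infDist x (frontier (K i ∩ K j)) ∧
        Metric.infDist x (frontier (K i ∩ K j)) ≤ s'}) ∪
      (⋃ i, ⋃ j, {c | ∃ x ∈ pts c, ∃ y ∈ pts c, x ≠ y ∧ (x, y) ∈ VBad s s' (K i ∩ K j)})))) := by
    intro c hc
    by_contra hcon
    simp only [mem_union, mem_iUnion, Set.mem_ofPred_eq, not_or, not_exists, not_and] at hcon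
    obtain ⟨n1, n2, n3, n4, n5⟩ := hcon
    refine n1 (vchain_shrink s s' hs0 hss K A B (pts c) hK hAc hBc hc ?_ ?_ ?_ ?_)
    · intro x hx i hF
      exact n2 i x hx hF.1 hF.2
    · intro x hx i hF
      exact n3 i x hx hF.1 hF.2
    · intro x hx i j hF
      exact n4 i j x hx hF.1 hF.2
    · intro x hx y hy hne i j hb
      exact n5 i j x hx y hy hne hb
  have hd0 : 0 ≤ 8 * C₁ * M * r * δ := by positivity
  have f1 : (poisson (lam δ N) (⋃ i, {c | ∃ x ∈ pts c, s < Metric.infDist x (A ∩ K i) ∧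
      Metric.infDist x (A ∩ K i) ≤ s'})).toReal ≤ m * (8 * C₁ * M * r * δ) :=
    V11_union _ _ _ fun i => e2 _ (inter_subset_left.trans (hAK.trans hfr))
  have f2 : (poisson (lam δ N) (⋃ i, {c | ∃ x ∈ pts c, s < Metric.infDist x (B ∩ K i) ∧
      Metric.infDist x (B ∩ K i) ≤ s'})).toReal ≤ m * (8 * C₁ * M * r * δ) :=
    V11_union _ _ _ fun i => e2 _ (inter_subset_left.trans (hBK.trans hfr))
  have f3 : (poisson (lam δ N) (⋃ i, ⋃ j, {c | ∃ x ∈ pts c,
      s < Metric.infDist x (frontier (K i ∩ K j)) ∧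
      Metric.infDist x (frontier (K i ∩ K j)) ≤ s'})).toReal ≤ m * (m * (8 * C₁ * M * r * δ)) :=
    V11_union _ _ _ fun i => V11_union _ _ _ fun j => e2 _ (V11_inter K hK i j)
  have f4 : (poisson (lam δ N) (⋃ i, ⋃ j, {c | ∃ x ∈ pts c, ∃ y ∈ pts c, x ≠ y ∧
      (x, y) ∈ VBad s s' (K i ∩ K j)})).toReal ≤
        m * (m * (104 * Real.pi * C₁ * r ^ 3 * M * δ)) :=
    V11_union _ _ _ fun i => V11_union _ _ _ fun j => e3 i j
  have e5 : (poisson (lam δ N) {c | VChain (2 * s) s' K A B (pts c)}).toReal ≤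
      (poisson (lam δ N) {c | VChain (2 * s) s K A B (pts c)}).toReal +
        (m * (8 * C₁ * M * r * δ) + (m * (8 * C₁ * M * r * δ) + (m * (m * (8 * C₁ * M * r * δ)) +
          m * (m * (104 * Real.pi * C₁ * r ^ 3 * M * δ))))) := by
    have h1 := measureReal_mono (μ := poisson (lam δ N)) e4
    refine h1.trans ((measureReal_union_le _ _).trans (add_le_add le_rfl
      ((measureReal_union_le _ _).trans (add_le_add f1
      ((measureReal_union_le _ _).trans (add_le_add f2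
      ((measureReal_union_le _ _).trans (add_le_add f3 f4))))))))
  have e8 : (Cu * (4 * r * C₁) + m * (8 * C₁ * M * r) + m * (8 * C₁ * M * r) +
      m * (m * (8 * C₁ * M * r)) + m * (m * (104 * Real.pi * C₁ * r ^ 3 * M))) * δ =
      Cu * (4 * r * C₁) * δ + m * (8 * C₁ * M * r * δ) + m * (8 * C₁ * M * r * δ) +
        m * (m * (8 * C₁ * M * r * δ)) + m * (m * (104 * Real.pi * C₁ * r ^ 3 * M * δ)) := by ring
  rw [e8]
  linarith

end MP412
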