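import Pool.Agent.Lib.MP_412417_pr.V.VDefs

/-!
Row 412-V3: two points `x, y` of a chain can be replaced by a net `E`.

(1) In a preconnected set `C` any two points are joined by a finite sequence of points of `C` with steps at most `ε`
(the set of the points reachable from a given one is open and closed in `C`).
(2) For an old piece `(p, i)` with `p ∈ Y` let `(p, i)` be its only representative, for `p ∈ {x, y}`, `p ∉ Y` let the representatives be the `(f, i)`,
`f ∈ E`, such that some `q ∈ K i` satisfies `dist p q ≤ s`, `dist f q ≤ ε` (then `dist q x ≤ s + dist x y`, so for every `q ∈ K i` with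
`dist p q ≤ s` there is such an `f`). Any two representatives of `(p, i)` are joined by links of `Y ∪ E`: by (1) for
`C = closedBall p s ∩ K i` and points of `E` near the points of the sequence (two consecutive ones: `dist f f' ≤ 3 ε ≤ u`, the common point is the
point `w ∈ K i` of the sequence, `2 ε ≤ s`). If `(p, i)`, `(p', j)` are linked by `q ∈ K i ∩ K j`, the representatives which belong to `q` are linked
(`dist p f ≤ s + ε ≤ u`; the same `f` may be taken twice). Induction on the chain. At the ends: `q ∈ A ∩ K i`, `dist f q ≤ ε ≤ s`.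
-/

set_option autoImplicit false

open MeasureTheory Set
open scoped ENNReal Pointwise

namespace MP412

private theorem V3_conn {C : Set ℂ} (hC : IsPreconnected C) {ε : ℝ} (hε : 0 < ε) (P : ℂ → Prop)
    (hstep : ∀ w ∈ C, ∀ w' ∈ C, dist w w' ≤ ε → P w → P w') {q q' : ℂ} (hq : q ∈ C)
    (hq' : q' ∈ C) (h : P q) : P q' := by
  have key : P q ↔ P q' := by
    refine hC.induction₂ (fun a b => P a ↔ P b) ?_ ?_ ?_ hq hq'
    · intro a ha
      have h1 : ∀ᶠ b in nhdsWithin a C, b ∈ Metric.ball a ε :=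
        nhdsWithin_le_nhds (Metric.ball_mem_nhds a hε)
      filter_upwards [h1, self_mem_nhdsWithin] with b hb hbC
      have hd : dist b a ≤ ε := (Metric.mem_ball.1 hb).le
      exact ⟨hstep a ha b hbC (by rw [dist_comm]; exact hd), hstep b hbC a ha hd⟩
    · intro a b c _ _ _ h1 h2
      exact h1.trans h2
    · intro a b _ _ h1
      exact h1.symm
  exact key.1 h

/-- `f` represents `p` at the point `q` -/
private def V3_Near (ε : ℝ) (Y E : Set ℂ) (p q f : ℂ) : Prop :=
  (p ∈ Y ∧ f = p) ∨ (p ∉ Y ∧ f ∈ E ∧ dist f q ≤ ε)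

private theorem V3_near_mem {ε : ℝ} {Y E : Set ℂ} {p q f : ℂ} (h : V3_Near ε Y E p q f) :
    f ∈ Y ∪ E := by
  rcases h with ⟨h1, rfl⟩ | ⟨-, h1, -⟩
  · exact Or.inl h1
  · exact Or.inr h1

private theorem V3_near_dist {ε s : ℝ} (hs : ε ≤ s) {Y E : Set ℂ} {p q f : ℂ}
    (h : V3_Near ε Y E p q f) (hpq : dist p q ≤ s) : dist f q ≤ s := by
  rcases h with ⟨-, rfl⟩ | ⟨-, -, h1⟩
  · exact hpq
  · exact h1.trans hs

private theorem V3_exists {ε s : ℝ} {Y E : Set ℂ} {x y : ℂ}
    (hE : ∀ p, dist p x ≤ s + dist x y → ∃ f ∈ E, dist f p ≤ ε) {p q : ℂ}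
    (hp : p ∈ Y ∪ {x, y}) (hpq : dist p q ≤ s) : ∃ f, V3_Near ε Y E p q f := by
  by_cases hY : p ∈ Y
  · exact ⟨p, Or.inl ⟨hY, rfl⟩⟩
  · have h1 : dist q x ≤ s + dist x y := by
      rcases hp with hp | hp | hp
      · exact absurd hp hY
      · rw [hp, dist_comm] at hpq
        linarith [dist_nonneg (x := x) (y := y)]
      · rw [hp] at hpq
        have h2 := dist_triangle q y x
        rw [dist_comm q y, dist_comm y x] at h2
        linarith
    obtain ⟨f, hf, hfq⟩ := hE q h1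
    exact ⟨f, Or.inr ⟨hY, hf, hfq⟩⟩

private theorem V3_dist {ε s u : ℝ} (hε : 0 < ε) (h1 : s + ε ≤ u) (h2 : 3 * ε ≤ u)
    {Y E : Set ℂ} {p p' q f f' : ℂ} (hf : V3_Near ε Y E p q f) (hf' : V3_Near ε Y E p' q f')
    (hpq : dist p q ≤ s) (hpq' : dist p' q ≤ s) (hpp : dist p p' ≤ u) : dist f f' ≤ u := by
  have ht := dist_triangle_right f f' q
  rcases hf with ⟨-, rfl⟩ | ⟨-, -, k1⟩
  · rcases hf' with ⟨-, rfl⟩ | ⟨-, -, k2⟩
    · exact hpp
    · linarith
  · rcases hf' with ⟨-, rfl⟩ | ⟨-, -, k2⟩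
    · linarith
    · linarith

theorem vchain_net {ι : Type} (u s ε : ℝ) (hε : 0 < ε) (h1 : s + ε ≤ u) (h2 : 3 * ε ≤ u)
    (h3 : 2 * ε ≤ s) (K : ι → Set ℂ)
    (hloc : ∀ i x, IsPreconnected (Metric.closedBall x s ∩ K i)) (A B Y E : Set ℂ) (x y : ℂ)
    (hch : VChain u s K A B (Y ∪ {x, y}))
    (hE : ∀ p, dist p x ≤ s + dist x y → ∃ f ∈ E, dist f p ≤ ε) :
    VChain u s K A B (Y ∪ E) := by
  have hεs : ε ≤ s := by linarith
  let L : ℂ × ι → ℂ × ι → Prop := fun a b => a.1 ∈ Y ∪ E ∧ b.1 ∈ Y ∪ E ∧ VLink u s K a b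
  -- any two representatives of a piece are joined
  have hb : ∀ (p : ℂ) (i : ι), p ∈ Y ∪ {x, y} → ∀ q q' f f' : ℂ, q ∈ K i → q' ∈ K i →
      dist p q ≤ s → dist p q' ≤ s → V3_Near ε Y E p q f → V3_Near ε Y E p q' f' →
      Relation.ReflTransGen L (f, i) (f', i) := by
    intro p i hp q q' f f' hq hq' hpq hpq' hf hf'
    by_cases hY : p ∈ Y
    · rcases hf with ⟨-, rfl⟩ | ⟨h, -⟩
      · rcases hf' with ⟨-, rfl⟩ | ⟨h, -⟩
        · exact Relation.ReflTransGen.refl
        · exact absurd hY h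
      · exact absurd hY h
    · rcases hf with ⟨h, -⟩ | ⟨-, hfE, hfq⟩
      · exact absurd h hY
      rcases hf' with ⟨h, -⟩ | ⟨-, hfE', hfq'⟩
      · exact absurd h hY
      have hC := hloc i p
      have hqC : q ∈ Metric.closedBall p s ∩ K i :=
        ⟨Metric.mem_closedBall.2 (by rw [dist_comm]; exact hpq), hq⟩
      have hqC' : q' ∈ Metric.closedBall p s ∩ K i :=
        ⟨Metric.mem_closedBall.2 (by rw [dist_comm]; exact hpq'), hq'⟩
      refine V3_conn hC hε (fun w => ∀ g ∈ E, dist g w ≤ ε →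
        Relation.ReflTransGen L (f, i) (g, i)) ?_ hqC hqC' ?_ f' hfE' hfq'
      · intro w hw w' hw' hd hP g hg hgw
        have hpw : dist p w ≤ s := by
          rw [dist_comm]
          exact Metric.mem_closedBall.1 hw.1
        obtain ⟨g0, hg0⟩ := V3_exists hE hp hpw
        rcases hg0 with ⟨h, -⟩ | ⟨-, hgE, hgw0⟩
        · exact absurd h hY
        refine (hP g0 hgE hgw0).tail ⟨Or.inr hgE, Or.inr hg, ?_, w, ⟨hw.2, hw.2⟩, ?_, ?_⟩
        · have k1 := dist_triangle_right g0 g w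
          have k2 := dist_triangle g w' w
          rw [dist_comm w' w] at k2
          show dist g0 g ≤ u
          linarith
        · exact hgw0.trans hεs
        · have k2 := dist_triangle g w' w
          rw [dist_comm w' w] at k2
          show dist g w ≤ s
          linarith
      · intro g hg hgq
        refine Relation.ReflTransGen.single ⟨Or.inr hfE, Or.inr hg, ?_, q, ⟨hq, hq⟩,
          hfq.trans hεs, hgq.trans hεs⟩
        have k1 := dist_triangle_right f g q
        show dist f g ≤ u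
        linarith
  obtain ⟨a, b, haX, hbX, ⟨qa, hqa, hda⟩, ⟨qb, hqb, hdb⟩, hch⟩ := hch
  obtain ⟨f0, hf0⟩ := V3_exists hE haX hda
  obtain ⟨f1, hf1⟩ := V3_exists hE hbX hdb
  refine ⟨(f0, a.2), (f1, b.2), V3_near_mem hf0, V3_near_mem hf1,
    ⟨qa, hqa, V3_near_dist hεs hf0 hda⟩, ⟨qb, hqb, V3_near_dist hεs hf1 hdb⟩, ?_⟩
  have main : ∀ q f : ℂ, b.1 ∈ Y ∪ {x, y} → q ∈ K b.2 → dist b.1 q ≤ s → V3_Near ε Y E b.1 q f →
      Relation.ReflTransGen L (f0, a.2) (f, b.2) := by
    clear hf1 hqb hdb hbX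
    induction hch with
    | refl =>
      intro q f hbX hq hd hf
      exact hb a.1 a.2 haX qa q f0 f hqa.2 hq hda hd hf0 hf
    | @tail c d hcd hlink ih =>
      intro q f hdX hq hd hf
      obtain ⟨hcX, -, hcu, w, ⟨hwc, hwd⟩, hdc, hdd⟩ := hlink
      obtain ⟨g, hg⟩ := V3_exists hE hcX hdc
      obtain ⟨g', hg'⟩ := V3_exists hE hdX hdd
      refine ((ih w g hcX hwc hdc hg).tail (b := (g, c.2)) (c := (g', d.2)) ⟨V3_near_mem hg,
        V3_near_mem hg', V3_dist hε h1 h2 hg hg' hdc hdd hcu, w, ⟨hwc, hwd⟩,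
        V3_near_dist hεs hg hdc, V3_near_dist hεs hg' hdd⟩).trans ?_
      exact hb d.1 d.2 hdX w q g' f hwd hq hdd hd hg' hf
  exact main qb f1 hbX hqb.2 hdb hf1

end MP412
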