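import Pool.Agent.Lib.MP_412417_pr.Defs

/-!
# Domains which are finite unions of pieces: auxiliary notions of the proof
-/

set_option autoImplicit false

open MeasureTheory Set
open scoped ENNReal Pointwise

namespace MP412

/-- two pieces `(x, i)` and `(y, j)` are linked: the distance of the centres is at most `u`, and some
point of `K i ∩ K j` is at distance at most `s` from both centres -/
def VLink {ι : Type} (u s : ℝ) (K : ι → Set ℂ) (p p' : ℂ × ι) : Prop :=
  dist p.1 p'.1 ≤ u ∧ ∃ q ∈ K p.2 ∩ K p'.2, dist p.1 q ≤ s ∧ dist p'.1 q ≤ s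

/-- there is a chain of linked pieces with centres in `X` from `A` to `B` -/
def VChain {ι : Type} (u s : ℝ) (K : ι → Set ℂ) (A B : Set ℂ) (X : Set ℂ) : Prop :=
  ∃ p p' : ℂ × ι, p.1 ∈ X ∧ p'.1 ∈ X ∧ (∃ q ∈ A ∩ K p.2, dist p.1 q ≤ s) ∧
    (∃ q ∈ B ∩ K p'.2, dist p'.1 q ≤ s) ∧
    Relation.ReflTransGen (fun a b => a.1 ∈ X ∧ b.1 ∈ X ∧ VLink u s K a b) p p'

/-- the pairs of centres at distance at most `2 s` whose discs of radius `s'` have a common point of
`F` but whose discs of radius `s` have not -/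
def VBad (s s' : ℝ) (F : Set ℂ) : Set (ℂ × ℂ) :=
  {p | dist p.1 p.2 ≤ 2 * s ∧ (∃ q ∈ F, dist p.1 q ≤ s' ∧ dist p.2 q ≤ s') ∧
    ¬ ∃ q ∈ F, dist p.1 q ≤ s ∧ dist p.2 q ≤ s}

end MP412
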