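import Pool.Agent.Lib.MP_412417_pr.P6
import Pool.Agent.Lib.MP_412417_pr.P7
import Pool.Agent.Lib.MP_412417_pr.V.V1
import Pool.Agent.Lib.MP_412417_pr.V.V2
import Pool.Agent.Lib.MP_412417_pr.L0

/-!
Row 412-VF1: scaling.

Adapt F1.lean; the measurability of the crossing event comes from `vcrosses_iff` and `measurableSet_vchain` for the radius `r / n ≤ s₀` (for
`c ∈ Conf`, `pts c` is finite).
-/

set_option autoImplicit false

open MeasureTheory Set
open scoped ENNReal Pointwise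

namespace MP412

private theorem VF1_crosses_smul_aux {n : ℝ} {S K A B : Set ℂ} (h : Crosses S K A B) :
    Crosses (n • S) (n • K) (n • A) (n • B) := by
  obtain ⟨C, hC, hCc, ⟨a, haC, haA⟩, ⟨b, hbC, hbB⟩⟩ := h
  refine ⟨n • C, ?_, ?_, ⟨n • a, ?_, ?_⟩, ⟨n • b, ?_, ?_⟩⟩
  · rintro _ ⟨x, hx, rfl⟩
    exact ⟨smul_mem_smul_set (hC hx).1, smul_mem_smul_set (hC hx).2⟩
  · have : n • C = (fun z : ℂ => n • z) '' C := rfl
    rw [this]
    exact hCc.image _ (continuous_const_smul n).continuousOn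
  · exact smul_mem_smul_set haC
  · exact smul_mem_smul_set haA
  · exact smul_mem_smul_set hbC
  · exact smul_mem_smul_set hbB

private theorem VF1_crosses_smul {n : ℝ} (hn : n ≠ 0) {S K A B : Set ℂ} :
    Crosses (n • S) (n • K) (n • A) (n • B) ↔ Crosses S K A B := by
  constructor
  · intro h
    have h' := VF1_crosses_smul_aux (n := n⁻¹) h
    simpa only [smul_smul, inv_mul_cancel₀ hn, one_smul] using h'
  · exact VF1_crosses_smul_aux

private theorem VF1_union {n r : ℝ} (hn : 0 < n) (hr : 0 < r) (c : Conf) :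
    n • (⋃ x ∈ pts (mapConf (fun z : ℂ => n⁻¹ • z) c), Metric.closedBall x (r * n⁻¹)) =
      ⋃ x ∈ pts c, Metric.closedBall x r := by
  rw [pts_mapConf]
  have hs : (0 : ℝ) ≤ r * n⁻¹ := by positivity
  rw [biUnion_image, smul_set_iUnion₂]
  refine iUnion₂_congr fun x _ => ?_
  rw [smul_closedBall _ _ hs, smul_smul, mul_inv_cancel₀ hn.ne', one_smul]
  congr 1
  rw [Real.norm_of_nonneg hn.le]
  field_simp

private theorem VF1_cthickening {n r : ℝ} (hn : 0 < n) (hr : 0 < r) {K : Set ℂ} (hK : IsCompact K) :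
    Metric.cthickening r (n • K) = n • Metric.cthickening (r * n⁻¹) K := by
  have hs : (0 : ℝ) ≤ r * n⁻¹ := by positivity
  have hnK : IsCompact (n • K) := hK.smul n
  rw [hnK.cthickening_eq_biUnion_closedBall hr.le, hK.cthickening_eq_biUnion_closedBall hs,
    smul_set_iUnion₂]
  have : n • K = (fun z : ℂ => n • z) '' K := rfl
  rw [this, biUnion_image]
  refine iUnion₂_congr fun x _ => ?_
  rw [smul_closedBall _ _ hs]
  congr 1
  rw [Real.norm_of_nonneg hn.le]
  field_simp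

private theorem VF1_map {n r : ℝ} (hn : 0 < n) (hr : 0 < r) {K : Set ℂ} (hK : IsCompact K) :
    (volume.restrict (Metric.cthickening r (n • K))).map (fun z : ℂ => n⁻¹ • z) =
      lam n⁻¹ (Metric.cthickening (r * n⁻¹) K) := by
  ext S hS
  have hg : Measurable (fun z : ℂ => n⁻¹ • z) := measurable_const_smul _
  rw [Measure.map_apply hg hS, Measure.restrict_apply (hg hS), lam_apply _ _ _ hS,
    VF1_cthickening hn hr hK]
  have e : (fun z : ℂ => n⁻¹ • z) ⁻¹' S = n • S := by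
    rw [preimage_smul_inv₀ hn.ne']
  rw [e, ← smul_set_inter₀ hn.ne', Measure.addHaar_smul, Complex.finrank_real_complex]
  congr 2
  rw [inv_inv, abs_of_nonneg (by positivity)]

theorem vP_eq {ι : Type} [Finite ι] (r : ℝ) (hr : 0 < r) (K : ι → Set ℂ) (N A B : Set ℂ)
    (hK : ∀ i, IsCompact (K i)) (s₀ : ℝ)
    (hloc : ∀ i x s, s ≤ s₀ → IsPreconnected (Metric.closedBall x s ∩ K i))
    (hA : IsCompact A) (hAK : A ⊆ ⋃ i, K i) (hB : IsCompact B) (hBK : B ⊆ ⋃ i, K i)
    (hN : MeasurableSet N) (hNb : Bornology.IsBounded N) (ρ : ℝ) (hρ : 0 < ρ)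
    (hKN : Metric.cthickening ρ (⋃ i, K i) ⊆ N)
    (n : ℝ) (hn : 0 < n) (hn' : r / n ≤ ρ) (hn'' : r / n ≤ s₀) :
    P r n (⋃ i, K i) A B = (poisson (lam n⁻¹ N) (Ev (r * n⁻¹) (⋃ i, K i) A B)).toReal := by
  have hKu : IsCompact (⋃ i, K i) := isCompact_iUnion hK
  have hs : (0 : ℝ) ≤ r * n⁻¹ := by positivity
  have hg : Measurable (fun z : ℂ => n⁻¹ • z) := measurable_const_smul _
  have hs₀ : r * n⁻¹ ≤ s₀ := by rwa [← div_eq_mul_inv]
  have hmeas : MeasurableSet (Ev (r * n⁻¹) (⋃ i, K i) A B) := by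
    have e : Ev (r * n⁻¹) (⋃ i, K i) A B =
        {c : Conf | VChain (2 * (r * n⁻¹)) (r * n⁻¹) K A B (pts c)} := by
      ext c
      exact vcrosses_iff _ K A B (pts c) hK (fun i x => hloc i x _ hs₀) hAK hBK (finite_pts c)
    rw [e]
    exact measurableSet_vchain _ _ K A B hK hA hB
  have hfin0 : IsFiniteMeasure (volume.restrict (Metric.cthickening r (n • ⋃ i, K i))) := by
    constructor
    rw [Measure.restrict_apply_univ]
    exact (hKu.smul n).isBounded.cthickening.measure_lt_top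
  have h1 : P r n (⋃ i, K i) A B = (poisson (lam n⁻¹ (Metric.cthickening (r * n⁻¹) (⋃ i, K i)))
      (Ev (r * n⁻¹) (⋃ i, K i) A B)).toReal := by
    rw [← VF1_map hn hr hKu, ← poisson_map _ _ hg, Measure.map_apply (measurable_mapConf hg) hmeas]
    unfold P Measure.real
    congr 2
    ext c
    simp only [mem_setOf_eq, mem_preimage, Ev]
    rw [← VF1_union hn hr c, VF1_crosses_smul hn.ne']
  have hfin : IsFiniteMeasure (lam n⁻¹ N) := isFiniteMeasure_lam _ hNb
  have hcN : Metric.cthickening (r * n⁻¹) (⋃ i, K i) ⊆ N := by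
    refine Subset.trans (Metric.cthickening_mono ?_ (⋃ i, K i)) hKN
    rwa [← div_eq_mul_inv]
  have hcm : MeasurableSet (Metric.cthickening (r * n⁻¹) (⋃ i, K i)) :=
    Metric.isClosed_cthickening.measurableSet
  have h2 : poisson (lam n⁻¹ N) (Ev (r * n⁻¹) (⋃ i, K i) A B) =
      poisson (lam n⁻¹ (Metric.cthickening (r * n⁻¹) (⋃ i, K i)))
        (Ev (r * n⁻¹) (⋃ i, K i) A B) := by
    have h3 := poisson_restrict (lam n⁻¹ N) (Metric.cthickening (r * n⁻¹) (⋃ i, K i)) hcm
      (fun X => Crosses (⋃ x ∈ X, Metric.closedBall x (r * n⁻¹)) (⋃ i, K i) A B) hmeas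
      (fun X => crosses_inter _ (⋃ i, K i) A B X)
    have e : (lam n⁻¹ N).restrict (Metric.cthickening (r * n⁻¹) (⋃ i, K i)) =
        lam n⁻¹ (Metric.cthickening (r * n⁻¹) (⋃ i, K i)) := by
      unfold lam
      rw [Measure.restrict_smul, Measure.restrict_restrict hcm, inter_eq_left.mpr hcN]
    rw [e] at h3
    exact h3
  rw [h1, h2]

end MP412
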