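import Pool.Agent.Lib.MP_412417_pr.C1a

/-!
Row 412-VN1: small discs meet the conformal image of a convex set in a connected set.

Let `c₁ ‖z - w‖ ≤ ‖f z - f w‖` on `C` (`bilip`) and `‖f z - f w - f'(w) (z - w)‖ ≤ M ‖z - w‖^2` for `w ∈ C`, `dist z w ≤ ρ` (`taylor`; `f''` is bounded on `C`).
Claim: for small `s` (uniformly in `x`) the set `{z ∈ C | dist (f z) x ≤ s}` is convex; its image is `closedBall x s ∩ f '' C`, so this is preconnected
(`f` is continuous on `C`). For the claim let `z₁, z₂` be in the set, `z = (1 - t) z₁ + t z₂ ∈ C`, `a = f z₁ - x`, `b = f z₂ - x`, `d = ‖z₁ - z₂‖ ≤ 2 s / c₁ ≤ ρ`. Then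
`‖f z - x - ((1 - t) a + t b)‖ ≤ M t (1 - t) d^2` (Taylor at `z`) and
`‖(1 - t) a + t b‖^2 = (1 - t) ‖a‖^2 + t ‖b‖^2 - t (1 - t) ‖a - b‖^2 ≤ s^2 - t (1 - t) c₁^2 d^2`, so `‖(1 - t) a + t b‖ ≤ s - t (1 - t) c₁^2 d^2 / (2 s)`. So
`‖f z - x‖ ≤ s` if `M ≤ c₁^2 / (2 s)`. (For `s < 0` the set is empty, for `s = 0` it has at most one point.)
-/

set_option autoImplicit false

open MeasureTheory Set
open scoped ENNReal Pointwise

namespace MP412

private theorem VN1_conv_id (α β : ℂ) (a b : ℝ) (hab : a + b = 1) :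
    ‖(a : ℂ) * α + (b : ℂ) * β‖ ^ 2 = a * ‖α‖ ^ 2 + b * ‖β‖ ^ 2 - a * b * ‖α - β‖ ^ 2 := by
  have hb : b = 1 - a := by linarith
  subst hb
  simp only [Complex.sq_norm, Complex.normSq_apply, Complex.add_re, Complex.add_im,
    Complex.sub_re, Complex.sub_im, Complex.mul_re, Complex.mul_im, Complex.ofReal_re,
    Complex.ofReal_im]
  ring

private theorem VN1_real {n s m k : ℝ} (hn : 0 ≤ n) (h1 : n ^ 2 ≤ s ^ 2 - k) (h2 : 2 * s * m ≤ k)
    (h3 : m ≤ s) : n + m ≤ s := by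
  by_contra h
  push Not at h
  have h4 : (s - m) ^ 2 < n ^ 2 := by nlinarith
  nlinarith [sq_nonneg m]

theorem image_loc (C G : Set ℂ) (f : ℂ → ℂ) (hG : IsOpen G) (hCG : C ⊆ G) (hC : IsCompact C)
    (hCc : Convex ℝ C) (hf : DifferentiableOn ℂ f G) (hinj : InjOn f G)
    (hf' : ∀ z ∈ G, deriv f z ≠ 0) :
    ∃ c : ℝ, 0 < c ∧ ∀ x s, s ≤ c → IsPreconnected (Metric.closedBall x s ∩ f '' C) := by
  obtain ⟨C₀, ρ, hC₀, hρ, htay⟩ := taylor G hG f hf C hC hCG
  obtain ⟨c₁, hc₁, hbil⟩ := bilip G hG f hf hinj hf' C hC hCG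
  have hd2 : DifferentiableOn ℂ (deriv (deriv f)) G := (hf.deriv hG).deriv hG
  obtain ⟨B0, hB0⟩ := hC.exists_bound_of_continuousOn (hd2.continuousOn.mono hCG)
  -- the quadratic estimate
  obtain ⟨M, hM0, hM⟩ : ∃ M : ℝ, 0 ≤ M ∧ ∀ w ∈ C, ∀ z, ‖z - w‖ ≤ ρ →
      ‖f z - f w - deriv f w * (z - w)‖ ≤ M * ‖z - w‖ ^ 2 := by
    refine ⟨max B0 0 / 2 + C₀ * ρ, by positivity, ?_⟩
    intro w hw z hz
    have h1 := (htay w hw z (by rwa [dist_eq_norm])).2
    have h2 : ‖deriv (deriv f) w / 2 * (z - w) ^ 2‖ ≤ max B0 0 / 2 * ‖z - w‖ ^ 2 := by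
      rw [norm_mul, norm_div, norm_pow]
      have : ‖(2 : ℂ)‖ = 2 := by simp
      rw [this]
      have h3 : ‖deriv (deriv f) w‖ ≤ max B0 0 := (hB0 w hw).trans (le_max_left _ _)
      gcongr
    have h4 : C₀ * ‖z - w‖ ^ 3 ≤ C₀ * ρ * ‖z - w‖ ^ 2 := by
      have : ‖z - w‖ ^ 3 = ‖z - w‖ * ‖z - w‖ ^ 2 := by ring
      rw [this, mul_assoc]
      gcongr
    have h5 : f z - f w - deriv f w * (z - w) =
        (f z - f w - deriv f w * (z - w) - deriv (deriv f) w / 2 * (z - w) ^ 2) +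
          deriv (deriv f) w / 2 * (z - w) ^ 2 := by ring
    rw [h5]
    refine (norm_add_le _ _).trans ?_
    linarith
  refine ⟨min (ρ * c₁ / 2) (c₁ ^ 2 / (2 * (M + 1))), lt_min (by positivity) (by positivity), ?_⟩
  intro x s hs
  have hs1 : 2 * s ≤ ρ * c₁ := by linarith [hs.trans (min_le_left _ _)]
  have hs2 : s * (2 * (M + 1)) ≤ c₁ ^ 2 := by
    have := hs.trans (min_le_right _ _)
    rwa [le_div_iff₀ (by positivity)] at this
  have hconv : Convex ℝ {z | z ∈ C ∧ ‖f z - x‖ ≤ s} := by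
    intro z1 h1 z2 h2 a b ha hb hab
    have hs0 : 0 ≤ s := (norm_nonneg _).trans h1.2
    have hsM : 2 * s * M ≤ c₁ ^ 2 := by nlinarith
    set z : ℂ := a • z1 + b • z2 with hz
    have hzC : z ∈ C := hCc h1.1 h2.1 ha hb hab
    refine ⟨hzC, ?_⟩
    have hzz : z = (a : ℂ) * z1 + (b : ℂ) * z2 := by
      rw [hz]; simp [Complex.real_smul]
    have habC : (a : ℂ) + (b : ℂ) = 1 := by exact_mod_cast hab
    set d : ℝ := ‖z1 - z2‖ with hd
    have hd0 : 0 ≤ d := norm_nonneg _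
    have hcd : c₁ * d ≤ ‖(f z1 - x) - (f z2 - x)‖ := by
      have := hbil z1 h1.1 z2 h2.1
      rwa [show f z1 - x - (f z2 - x) = f z1 - f z2 by ring]
    have hcd2 : c₁ * d ≤ 2 * s := by
      refine hcd.trans ((norm_sub_le _ _).trans ?_)
      linarith [h1.2, h2.2]
    have hdρ : d ≤ ρ := by
      have : c₁ * d ≤ c₁ * ρ := by linarith
      exact le_of_mul_le_mul_left this hc₁
    have e1 : z1 - z = (b : ℂ) * (z1 - z2) := by
      rw [hzz, show (a : ℂ) = 1 - b by rw [← habC]; ring]; ring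
    have e2 : z2 - z = -((a : ℂ) * (z1 - z2)) := by
      rw [hzz, show (b : ℂ) = 1 - a by rw [← habC]; ring]; ring
    have hb1 : b ≤ 1 := by linarith
    have ha1 : a ≤ 1 := by linarith
    have n1 : ‖z1 - z‖ = b * d := by
      rw [e1, norm_mul, Complex.norm_real, Real.norm_eq_abs, abs_of_nonneg hb]
    have n2 : ‖z2 - z‖ = a * d := by
      rw [e2, norm_neg, norm_mul, Complex.norm_real, Real.norm_eq_abs, abs_of_nonneg ha]
    have t1 := hM z hzC z1 (by rw [n1]; nlinarith)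
    have t2 := hM z hzC z2 (by rw [n2]; nlinarith)
    rw [n1] at t1
    rw [n2] at t2
    set E1 := f z1 - f z - deriv f z * (z1 - z) with hE1
    set E2 := f z2 - f z - deriv f z * (z2 - z) with hE2
    have key : f z - x = ((a : ℂ) * (f z1 - x) + (b : ℂ) * (f z2 - x)) -
        ((a : ℂ) * E1 + (b : ℂ) * E2) := by
      rw [hE1, hE2, e1, e2, show (b : ℂ) = 1 - a by rw [← habC]; ring]
      ring
    have hErr : ‖(a : ℂ) * E1 + (b : ℂ) * E2‖ ≤ M * (a * b * d ^ 2) := by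
      refine (norm_add_le _ _).trans ?_
      rw [norm_mul, norm_mul, Complex.norm_real, Complex.norm_real, Real.norm_eq_abs,
        Real.norm_eq_abs, abs_of_nonneg ha, abs_of_nonneg hb]
      have u1 : a * ‖E1‖ ≤ a * (M * (b * d) ^ 2) := mul_le_mul_of_nonneg_left t1 ha
      have u2 : b * ‖E2‖ ≤ b * (M * (a * d) ^ 2) := mul_le_mul_of_nonneg_left t2 hb
      have u3 : a * (M * (b * d) ^ 2) + b * (M * (a * d) ^ 2) =
          M * (a * b * d ^ 2) * (a + b) := by ring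
      rw [hab, mul_one] at u3
      linarith
    have hsq := VN1_conv_id (f z1 - x) (f z2 - x) a b hab
    have hab0 : 0 ≤ a * b := mul_nonneg ha hb
    have q1 : ‖f z1 - x‖ ^ 2 ≤ s ^ 2 := pow_le_pow_left₀ (norm_nonneg _) h1.2 2
    have q2 : ‖f z2 - x‖ ^ 2 ≤ s ^ 2 := pow_le_pow_left₀ (norm_nonneg _) h2.2 2
    have q3 : (c₁ * d) ^ 2 ≤ ‖(f z1 - x) - (f z2 - x)‖ ^ 2 :=
      pow_le_pow_left₀ (by positivity) hcd 2
    have hn2 : ‖(a : ℂ) * (f z1 - x) + (b : ℂ) * (f z2 - x)‖ ^ 2 ≤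
        s ^ 2 - a * b * (c₁ * d) ^ 2 := by
      rw [hsq]
      have w1 := mul_le_mul_of_nonneg_left q1 ha
      have w2 := mul_le_mul_of_nonneg_left q2 hb
      have w3 := mul_le_mul_of_nonneg_left q3 hab0
      have w4 : a * s ^ 2 + b * s ^ 2 = s ^ 2 := by rw [← add_mul, hab, one_mul]
      linarith
    have h24 : a * b ≤ 1 / 4 := by
      have : b = 1 - a := by linarith
      subst this
      nlinarith [sq_nonneg (a - 1 / 2)]
    have hm1 : 2 * s * (M * (a * b * d ^ 2)) ≤ a * b * (c₁ * d) ^ 2 := by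
      have : 2 * s * M * (a * b * d ^ 2) ≤ c₁ ^ 2 * (a * b * d ^ 2) :=
        mul_le_mul_of_nonneg_right hsM (by positivity)
      nlinarith
    have hm2 : M * (a * b * d ^ 2) ≤ s := by
      have v1 : (c₁ * d) ^ 2 ≤ (2 * s) ^ 2 := pow_le_pow_left₀ (by positivity) hcd2 2
      have v2 : 2 * s * (M * (a * b * d ^ 2)) ≤ s ^ 2 := by nlinarith
      rcases hs0.eq_or_lt with h0 | hpos
      · have : d = 0 := by
          rw [← h0] at hcd2
          nlinarith
        rw [this, ← h0]; simp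
      · nlinarith [mul_nonneg hM0 (mul_nonneg hab0 (sq_nonneg d))]
    have := VN1_real (norm_nonneg _) hn2 hm1 hm2
    rw [key]
    refine (norm_sub_le _ _).trans ?_
    linarith
  have himg : Metric.closedBall x s ∩ f '' C = f '' {z | z ∈ C ∧ ‖f z - x‖ ≤ s} := by
    ext y
    constructor
    · rintro ⟨hy, z, hz, rfl⟩
      exact ⟨z, ⟨hz, by rwa [Metric.mem_closedBall, dist_eq_norm] at hy⟩, rfl⟩
    · rintro ⟨z, ⟨hz, hzs⟩, rfl⟩
      exact ⟨by rwa [Metric.mem_closedBall, dist_eq_norm], z, hz, rfl⟩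
  rw [himg]
  refine hconv.isPreconnected.image f ?_
  exact hf.continuousOn.mono fun z hz => hCG hz.1

end MP412
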