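import Pool.Agent.Lib.MP_412417_pr.G8

/-!
Row 412-VN2: the boundary of the conformal image of a convex set has small neighbourhoods.

(1) `frontier (f '' C) ⊆ f '' frontier C`: `f '' C` is closed and `f '' interior C` is open (open mapping or inverse function theorem,
`HasStrictDerivAt.map_nhds_eq`), and `f '' C \ f '' interior C ⊆ f '' (C \ interior C)`. (2) `f` is Lipschitz on `C` (convex, `deriv f` bounded on the compact `C`;
`Convex.norm_image_sub_le_of_norm_deriv_le` or similar), constant `M ≥ 1`. (3) Let `F = frontier C`, `s ≤ 1`, and let `q_1, .., q_k` be a maximal subset of `F`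
with distances at least `s`. The balls `ball q_i (s/2)` are disjoint and contained in `thickening s F`, of area at most `C_b s` (`bdry_area`), so
`k ≤ 4 C_b / (π s)`. Then `thickening s (f '' F) ⊆ ⋃ ball (f q_i) ((M + 1) s)`, of area at most `k π (M + 1)^2 s^2 ≤ c s`.
-/

set_option autoImplicit false

open MeasureTheory Set
open scoped ENNReal Pointwise

namespace MP412

/-- a maximal separated set of a set with small neighbourhoods -/
private theorem VN2_net (F : Set ℂ) (C s : ℝ) (hC : 0 ≤ C) (hs : 0 < s)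
    (hv : volume (Metric.thickening s F) ≤ ENNReal.ofReal (C * s)) :
    ∃ Q : Finset ℂ, (∀ q ∈ Q, q ∈ F) ∧ (∀ q ∈ F, ∃ q' ∈ Q, dist q q' < s) ∧
      (Q.card : ℝ) * (Real.pi * s) ≤ 4 * C := by
  classical
  have hbd : ∀ Q : Finset ℂ, (∀ q ∈ Q, q ∈ F) → (∀ q ∈ Q, ∀ q' ∈ Q, q ≠ q' → s ≤ dist q q') →
      (Q.card : ℝ) * (Real.pi * s) ≤ 4 * C := by
    intro Q hQ hsep
    rcases Q.eq_empty_or_nonempty with rfl | ⟨q0, hq0⟩
    · rw [Finset.card_empty, Nat.cast_zero, zero_mul]
      positivity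
    have h1 : (Q.card : ENNReal) * (ENNReal.ofReal (s / 2) ^ 2 * NNReal.pi) ≤
        ENNReal.ofReal (C * s) := by
      have h2 : volume (⋃ q ∈ Q, Metric.ball q (s / 2)) =
          (Q.card : ENNReal) * (ENNReal.ofReal (s / 2) ^ 2 * NNReal.pi) := by
        rw [measure_biUnion_finset]
        · simp only [Complex.volume_ball, Finset.sum_const, nsmul_eq_mul]
        · intro q hq q' hq' hne
          refine Metric.ball_disjoint_ball ?_
          have := hsep q hq q' hq' hne
          linarith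
        · intro q _
          exact Metric.isOpen_ball.measurableSet
      rw [← h2]
      refine (measure_mono ?_).trans hv
      intro z hz
      rw [Set.mem_iUnion₂] at hz
      obtain ⟨q, hq, hz⟩ := hz
      rw [Metric.mem_thickening_iff]
      refine ⟨q, hQ q hq, ?_⟩
      rw [Metric.mem_ball] at hz
      linarith
    have h3 : (Q.card : ENNReal) * (ENNReal.ofReal (s / 2) ^ 2 * NNReal.pi) =
        ENNReal.ofReal (Q.card * ((s / 2) ^ 2 * Real.pi)) := by
      rw [ENNReal.ofReal_mul (by positivity), ENNReal.ofReal_natCast, ENNReal.ofReal_mul (by positivity),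
        ENNReal.ofReal_pow (by positivity)]
      congr 2
      rw [← NNReal.coe_real_pi, ENNReal.ofReal_coe_nnreal]
    rw [h3] at h1
    have h4 : 0 < (Q.card : ℝ) * ((s / 2) ^ 2 * Real.pi) := by
      have : 0 < Q.card := Finset.card_pos.2 ⟨q0, hq0⟩
      positivity
    have h5 : (Q.card : ℝ) * ((s / 2) ^ 2 * Real.pi) ≤ C * s := by
      by_contra hcon
      push Not at hcon
      have := (ENNReal.ofReal_lt_ofReal_iff h4).2 hcon
      exact absurd h1 (not_le.2 this)
    have h6 : (Q.card : ℝ) * (Real.pi * s) * s ≤ 4 * C * s := by nlinarith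
    exact le_of_mul_le_mul_right h6 hs
  set P : Set ℕ := {n | ∃ Q : Finset ℂ, (∀ q ∈ Q, q ∈ F) ∧
    (∀ q ∈ Q, ∀ q' ∈ Q, q ≠ q' → s ≤ dist q q') ∧ Q.card = n} with hP
  have hP0 : P.Nonempty := ⟨0, ∅, by simp, by simp, rfl⟩
  have hPb : BddAbove P := by
    refine ⟨⌊4 * C / (Real.pi * s)⌋₊, ?_⟩
    rintro n ⟨Q, h1, h2, rfl⟩
    apply Nat.le_floor
    rw [le_div_iff₀ (by positivity)]
    exact hbd Q h1 h2
  obtain ⟨Q, h1, h2, h3⟩ := Nat.sSup_mem hP0 hPb
  refine ⟨Q, h1, fun q hq => ?_, hbd Q h1 h2⟩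
  by_contra hcon
  push Not at hcon
  have hqQ : q ∉ Q := by
    intro h
    have := hcon q h
    rw [dist_self] at this
    linarith
  have h4 : Q.card + 1 ∈ P := by
    refine ⟨insert q Q, ?_, ?_, Finset.card_insert_of_notMem hqQ⟩
    · intro x hx
      rcases Finset.mem_insert.1 hx with rfl | hx
      · exact hq
      · exact h1 x hx
    · intro x hx y hy hne
      rcases Finset.mem_insert.1 hx with hx1 | hx1
      · rcases Finset.mem_insert.1 hy with hy1 | hy1
        · exact absurd (hx1.trans hy1.symm) hne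
        · rw [hx1]
          exact hcon y hy1
      · rcases Finset.mem_insert.1 hy with hy1 | hy1
        · rw [hy1, dist_comm]
          exact hcon x hx1
        · exact h2 x hx1 y hy1 hne
  have h5 := le_csSup hPb h4
  omega

theorem image_thin (C G : Set ℂ) (f : ℂ → ℂ) (hG : IsOpen G) (hCG : C ⊆ G) (hC : IsCompact C)
    (hCc : Convex ℝ C) (hCi : (interior C).Nonempty) (hf : DifferentiableOn ℂ f G)
    (hinj : InjOn f G) (hf' : ∀ z ∈ G, deriv f z ≠ 0) :
    ∃ c : ℝ, 0 < c ∧ ∀ s : ℝ, 0 < s → s ≤ 1 →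
      volume (Metric.thickening s (frontier (f '' C))) ≤ ENNReal.ofReal (c * s) := by
  obtain ⟨Cb, hCb, hbd⟩ := bdry_area C hC hCc hCi
  have hd : ∀ z ∈ C, DifferentiableAt ℂ f z := fun z hz =>
    (hf z (hCG hz)).differentiableAt (hG.mem_nhds (hCG hz))
  have hdc : ContinuousOn (deriv f) C :=
    ((hf.deriv hG).continuousOn).mono hCG
  obtain ⟨M, hM⟩ := hC.exists_bound_of_continuousOn hdc
  have hlip : ∀ x ∈ C, ∀ y ∈ C, dist (f y) (f x) ≤ |M| * dist y x := by
    intro x hx y hy
    rw [dist_eq_norm, dist_eq_norm]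
    exact Convex.norm_image_sub_le_of_norm_deriv_le hd
      (fun z hz => (hM z hz).trans (le_abs_self M)) hCc hx hy
  have hopen : ∀ x ∈ interior C, f x ∈ interior (f '' C) := by
    intro x hx
    rw [mem_interior_iff_mem_nhds]
    have h1 : HasStrictDerivAt f (deriv f x) x := by
      have h2 : AnalyticAt ℂ f x :=
        hf.analyticAt (hG.mem_nhds (hCG (interior_subset hx)))
      exact h2.hasStrictDerivAt
    have h3 := h1.map_nhds_eq (hf' x (hCG (interior_subset hx)))
    rw [← h3]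
    exact Filter.image_mem_map (mem_interior_iff_mem_nhds.1 hx)
  have hfr : frontier (f '' C) ⊆ f '' frontier C := by
    intro y hy
    have hcl : IsClosed (f '' C) := (hC.image_of_continuousOn (hf.continuousOn.mono hCG)).isClosed
    have hy1 : y ∈ f '' C := hcl.frontier_subset hy
    obtain ⟨x, hx, rfl⟩ := hy1
    refine ⟨x, ⟨subset_closure hx, fun hxi => ?_⟩, rfl⟩
    exact hy.2 (hopen x hxi)
  refine ⟨4 * Cb * (|M| + 1) ^ 2, by positivity, fun s hs hs1 => ?_⟩
  obtain ⟨Q, hQF, hQ, hcard⟩ := VN2_net (frontier C) Cb s hCb.le hs (hbd s hs hs1)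
  have hFC : frontier C ⊆ C := hC.isClosed.frontier_subset
  have hsub : Metric.thickening s (frontier (f '' C)) ⊆
      ⋃ q ∈ Q, Metric.ball (f q) ((|M| + 1) * s) := by
    intro y hy
    obtain ⟨w, hw, hyw⟩ := Metric.mem_thickening_iff.1 hy
    obtain ⟨q, hq, rfl⟩ := hfr hw
    obtain ⟨q', hq', hqq⟩ := hQ q hq
    rw [Set.mem_iUnion₂]
    refine ⟨q', hq', ?_⟩
    rw [Metric.mem_ball]
    have h1 := hlip q' (hFC (hQF q' hq')) q (hFC hq)
    have h2 : |M| * dist q q' ≤ |M| * s := mul_le_mul_of_nonneg_left hqq.le (abs_nonneg M)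
    calc dist y (f q') ≤ dist y (f q) + dist (f q) (f q') := dist_triangle _ _ _
      _ < s + |M| * s := by linarith
      _ = (|M| + 1) * s := by ring
  refine (measure_mono hsub).trans ((measure_biUnion_finset_le _ _).trans ?_)
  have hr : 0 ≤ (|M| + 1) * s := by positivity
  have h3 : ∑ q ∈ Q, volume (Metric.ball (f q) ((|M| + 1) * s)) =
      ENNReal.ofReal (Q.card * (((|M| + 1) * s) ^ 2 * Real.pi)) := by
    rw [ENNReal.ofReal_mul (by positivity), ENNReal.ofReal_natCast, ENNReal.ofReal_mul (by positivity),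
      ENNReal.ofReal_pow hr]
    simp only [Complex.volume_ball, Finset.sum_const, nsmul_eq_mul]
    congr 2
    rw [← NNReal.coe_real_pi, ENNReal.ofReal_coe_nnreal]
  rw [h3]
  apply ENNReal.ofReal_le_ofReal
  have h4 : (Q.card : ℝ) * (((|M| + 1) * s) ^ 2 * Real.pi) =
      ((Q.card : ℝ) * (Real.pi * s)) * ((|M| + 1) ^ 2 * s) := by ring
  rw [h4]
  calc ((Q.card : ℝ) * (Real.pi * s)) * ((|M| + 1) ^ 2 * s) ≤ (4 * Cb) * ((|M| + 1) ^ 2 * s) :=
        mul_le_mul_of_nonneg_right hcard (by positivity)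
    _ = 4 * Cb * (|M| + 1) ^ 2 * s := by ring

end MP412
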