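import Pool.Agent.Lib.MP_412417_pr.Piece
import Pool.Agent.Lib.MP_412417_pr.V.VC6
import Pool.Agent.Lib.MP_412417_pr.V.V11
import Pool.Agent.Lib.MP_412417_pr.V.VF1
import Pool.Agent.Lib.MP_412417_pr.V.VN1
import Pool.Agent.Lib.MP_412417_pr.V.VN2

/-!
Row 412-VF2: the main theorem.
-/

set_option autoImplicit false

open MeasureTheory Set
open scoped ENNReal Pointwise

namespace MP412

private theorem VF2_piece {L : Set ℂ} (h : Piece L) :
    ∃ c : ℝ, 0 < c ∧ (∀ x s, s ≤ c → IsPreconnected (Metric.closedBall x s ∩ L)) ∧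
      ∀ s, 0 < s → s ≤ 1 →
        volume (Metric.thickening s (frontier L)) ≤ ENNReal.ofReal (s / c) := by
  obtain ⟨-, ⟨C, G, f, hC, hCc, hCi, hG, hCG, hf, hinj, hf', rfl⟩ | ⟨c, hc, h1, h2⟩⟩ := h
  · obtain ⟨c₁, hc₁, h1⟩ := image_loc C G f hG hCG hC hCc hf hinj hf'
    obtain ⟨c₂, hc₂, h2⟩ := image_thin C G f hG hCG hC hCc hCi hf hinj hf'
    refine ⟨min c₁ c₂⁻¹, lt_min hc₁ (inv_pos.mpr hc₂), fun x s hs => h1 x s (hs.trans
      (min_le_left _ _)), fun s hs hs1 => (h2 s hs hs1).trans (ENNReal.ofReal_le_ofReal ?_)⟩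
    rw [le_div_iff₀ (lt_min hc₁ (inv_pos.mpr hc₂))]
    calc c₂ * s * min c₁ c₂⁻¹ ≤ c₂ * s * c₂⁻¹ :=
          mul_le_mul_of_nonneg_left (min_le_right _ _) (by positivity)
      _ = s := by field_simp
  · exact ⟨c, hc, h1, h2⟩

private theorem VF2_uniform {ι : Type} [Finite ι] (K : ι → Set ℂ) (hK : ∀ i, Piece (K i)) :
    ∃ c : ℝ, 0 < c ∧ (∀ i x s, s ≤ c → IsPreconnected (Metric.closedBall x s ∩ K i)) ∧
      ∀ i s, 0 < s → s ≤ 1 →
        volume (Metric.thickening s (frontier (K i))) ≤ ENNReal.ofReal (c⁻¹ * s) := by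
  cases nonempty_fintype ι
  choose c hc h1 h2 using fun i => VF2_piece (hK i)
  have hD : ∃ d : ℝ, 0 < d ∧ ∀ i, d ≤ c i := by
    rcases isEmpty_or_nonempty ι with he | hne
    · exact ⟨1, one_pos, fun i => (he.false i).elim⟩
    · obtain ⟨i₀, hi₀⟩ := Finite.exists_min c
      exact ⟨c i₀, hc i₀, hi₀⟩
  obtain ⟨d, hd, hdc⟩ := hD
  refine ⟨d, hd, fun i x s hs => h1 i x s (hs.trans (hdc i)), fun i s hs hs1 =>
    (h2 i s hs hs1).trans (ENNReal.ofReal_le_ofReal ?_)⟩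
  rw [inv_mul_eq_div]
  exact div_le_div_of_nonneg_left hs.le hd (hdc i)

/-- the main theorem -/
theorem vmain (r : ℝ) (hr : 0 < r) (G : Set ℂ) (hG : IsOpen G) (φ ψ : ℂ → ℂ)
    (hφ : DifferentiableOn ℂ φ G) (hφ' : ∀ z ∈ G, deriv φ z ≠ 0) (hψ : ∀ z ∈ G, ψ (φ z) = z)
    {ι : Type} [Finite ι] (K : ι → Set ℂ) (hK : ∀ i, Piece (K i)) (N : Set ℂ)
    (hN : IsCompact N) (hKN : (⋃ i, K i) ⊆ interior N) (hNG : N ⊆ G)
    (A B : Set ℂ) (hA : IsClosed A) (hAK : A ⊆ frontier (⋃ i, K i)) (hB : IsClosed B)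
    (hBK : B ⊆ frontier (⋃ i, K i)) :
    ∃ C : ℝ, ∀ n : ℝ, 1 ≤ n →
      |Pdens (fun w => ‖deriv ψ w‖) (φ '' N) r n (φ '' ⋃ i, K i) (φ '' A) (φ '' B) -
        P r n (⋃ i, K i) A B| ≤ C / n := by
  have hKi : ∀ i, IsCompact (K i) := fun i => (hK i).1
  have hL : IsCompact (⋃ i, K i) := isCompact_iUnion hKi
  have hfL : frontier (⋃ i, K i) ⊆ ⋃ i, K i := hL.isClosed.frontier_subset
  have hAK' : A ⊆ ⋃ i, K i := hAK.trans hfL
  have hBK' : B ⊆ ⋃ i, K i := hBK.trans hfL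
  have hAc : IsCompact A := hL.of_isClosed_subset hA hAK'
  have hBc : IsCompact B := hL.of_isClosed_subset hB hBK'
  obtain ⟨s₀, hs₀, hloc, hthin⟩ := VF2_uniform K hK
  obtain ⟨ρ, hρ, hρN⟩ := hL.exists_cthickening_subset_open isOpen_interior hKN
  have hρN' : Metric.cthickening ρ (⋃ i, K i) ⊆ N := hρN.trans interior_subset
  obtain ⟨C₂, C₁, δ₂, hC₁, hδ₂, hst⟩ := vstage1 r hr G hG φ ψ hφ hφ' hψ K N A B hKi s₀ hs₀ hloc
    hN hKN hNG hAc hAK' hBc hBK'
  obtain ⟨C₃, δ₃, hδ₃, hrs⟩ := vradius_stable r hr K N A B hKi s₀ hs₀ hloc s₀⁻¹ hthin hA hAK hB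
    hBK hN.measurableSet hN.isBounded ρ hρ hρN' C₁ hC₁
  set D : ℝ := min (min δ₂ δ₃) (min 1 (min ρ s₀ / r)) with hD
  have hDpos : 0 < D := by
    rw [hD]; exact lt_min (lt_min hδ₂ hδ₃) (lt_min one_pos (div_pos (lt_min hρ hs₀) hr))
  refine ⟨max (1 / D) (|C₂| + |C₃|), fun n hn => ?_⟩
  have hn0 : 0 < n := lt_of_lt_of_le one_pos hn
  set p : ℝ := Pdens (fun w => ‖deriv ψ w‖) (φ '' N) r n (φ '' ⋃ i, K i) (φ '' A) (φ '' B) with hp
  by_cases hnD : n⁻¹ ≤ D
  · -- large `n`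
    set δ : ℝ := n⁻¹ with hδ
    have hδ0 : 0 < δ := inv_pos.mpr hn0
    have h1 : δ ≤ δ₂ := hnD.trans (le_trans (min_le_left _ _) (min_le_left _ _))
    have h2 : δ ≤ δ₃ := hnD.trans (le_trans (min_le_left _ _) (min_le_right _ _))
    have h3 : δ ≤ 1 := hnD.trans (le_trans (min_le_right _ _) (min_le_left _ _))
    have h4 : δ ≤ min ρ s₀ / r := hnD.trans (le_trans (min_le_right _ _) (min_le_right _ _))
    obtain ⟨ha, hb⟩ := hst δ hδ0 h1
    have hc := hrs δ hδ0 h2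
    rw [hδ, inv_inv, ← hδ, ← hp] at ha hb
    have _ : IsFiniteMeasure (lam δ N) := isFiniteMeasure_lam δ hN.isBounded
    have h5 : r / n ≤ min ρ s₀ := by
      have h5 : r * δ ≤ r * (min ρ s₀ / r) := mul_le_mul_of_nonneg_left h4 hr.le
      rw [mul_div_cancel₀ _ hr.ne'] at h5
      rw [div_eq_mul_inv, ← hδ]; exact h5
    have hPe : P r n (⋃ i, K i) A B =
        (poisson (lam δ N) (Ev (r * δ) (⋃ i, K i) A B)).toReal := by
      have := vP_eq r hr K N A B hKi s₀ hloc hAc hAK' hBc hBK' hN.measurableSet hN.isBounded ρ hρ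
        hρN' n hn0 (h5.trans (min_le_left _ _)) (h5.trans (min_le_right _ _))
      exact this
    have hmono : ∀ s s' : ℝ, s ≤ s' → (poisson (lam δ N) (Ev s (⋃ i, K i) A B)).toReal ≤
        (poisson (lam δ N) (Ev s' (⋃ i, K i) A B)).toReal := fun s s' h =>
      ENNReal.toReal_mono (measure_ne_top _ _) (measure_mono (Ev_mono h _ A B))
    have hrδ : 0 < r * δ := mul_pos hr hδ0
    have hu : (poisson (lam δ N) (Ev (r * δ) (⋃ i, K i) A B)).toReal ≤
        (poisson (lam δ N) (Ev (r * δ * (1 + C₁ * δ ^ 2)) (⋃ i, K i) A B)).toReal :=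
      hmono _ _ (by nlinarith [mul_nonneg hC₁ (sq_nonneg δ)])
    have hl : (poisson (lam δ N) (Ev (r * δ * (1 - C₁ * δ ^ 2)) (⋃ i, K i) A B)).toReal ≤
        (poisson (lam δ N) (Ev (r * δ) (⋃ i, K i) A B)).toReal :=
      hmono _ _ (by nlinarith [mul_nonneg hC₁ (sq_nonneg δ)])
    have hkey : |p - P r n (⋃ i, K i) A B| ≤ (|C₂| + |C₃|) * δ := by
      have h6 : C₂ * δ ^ 2 ≤ |C₂| * δ :=
        mul_le_mul (le_abs_self _) (by nlinarith) (sq_nonneg δ) (abs_nonneg _)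
      have h7 : C₃ * δ ≤ |C₃| * δ :=
        mul_le_mul_of_nonneg_right (le_abs_self _) hδ0.le
      rw [hPe, abs_le]
      constructor
      · nlinarith
      · nlinarith
    refine hkey.trans ?_
    rw [hδ, ← div_eq_mul_inv]
    exact div_le_div_of_nonneg_right (le_max_right _ _) hn0.le
  · -- small `n`
    rw [not_le] at hnD
    have hp01 : 0 ≤ p ∧ p ≤ 1 := by
      refine ⟨measureReal_nonneg, ?_⟩
      have hfin : IsFiniteMeasure ((volume.restrict (φ '' N)).withDensity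
          fun x => ENNReal.ofReal ((n * ‖deriv ψ x‖) ^ 2)) := by
        have h5 := change_var G hG φ ψ hφ hφ' hψ N hN hNG n hn0
        have h6 : IsFiniteMeasure (lam n⁻¹ N) := isFiniteMeasure_lam n⁻¹ hN.isBounded
        refine ⟨?_⟩
        have h7 : (((volume.restrict (φ '' N)).withDensity
            fun x => ENNReal.ofReal ((n * ‖deriv ψ x‖) ^ 2)).map
              ((φ '' N).indicator ψ)) univ < ⊤ := by
          rw [h5]; exact measure_lt_top _ _
        rwa [Measure.map_apply (measurable_inv G hG φ ψ hφ hφ' hψ N hN hNG) MeasurableSet.univ,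
          preimage_univ] at h7
      exact measureReal_le_one
    have hP01 : 0 ≤ P r n (⋃ i, K i) A B ∧ P r n (⋃ i, K i) A B ≤ 1 := by
      refine ⟨measureReal_nonneg, ?_⟩
      have hcp : Bornology.IsBounded (Metric.cthickening r (n • ⋃ i, K i)) :=
        (hL.smul n).isBounded.cthickening
      have hfin : IsFiniteMeasure (volume.restrict (Metric.cthickening r (n • ⋃ i, K i))) :=
        ⟨by rw [Measure.restrict_apply_univ]; exact hcp.measure_lt_top⟩
      exact measureReal_le_one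
    have h1 : |p - P r n (⋃ i, K i) A B| ≤ 1 := by
      rw [abs_le]; constructor <;> linarith [hp01.1, hp01.2, hP01.1, hP01.2]
    refine h1.trans ?_
    have h2 : 1 ≤ (1 / D) / n := by
      rw [div_div, le_div_iff₀ (mul_pos hDpos hn0), one_mul]
      have h3 : D * n ≤ n⁻¹ * n := mul_le_mul_of_nonneg_right hnD.le hn0.le
      rwa [inv_mul_cancel₀ hn0.ne'] at h3
    exact h2.trans (div_le_div_of_nonneg_right (le_max_left _ _) hn0.le)

end MP412
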